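import Pool.Agent.X97.SV.Step
import Pool.Agent.X239.CV.Path
set_option autoImplicit false

/-!
# The path of the shadow vertex rule, and the number of its vertices
-/

namespace Pool.Agent.X97.SV

open Set Pool.Agent.Y644.QS Pool.Agent.H687R2.LLL Pool.Agent.NPC

/-! ### More on the invariant -/

section More

variable {N : ℕ} {c s0 x x' : List ℤ} {J : List (List ℤ)} {p q l s : ℝ}

theorem gn_smul_left {V : Type*} [AddCommGroup V] [Module ℝ V] (τ f : V →ₗ[ℝ] ℝ) (x y : V)
    (s : ℝ) : gn τ f (s • x) y = s * gn τ f x y := by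
  simp only [gn, map_smul, smul_eq_mul]; ring

theorem Tp.scale {x : EuclideanSpace ℝ (Fin N)} (h : Tp N c J s0 q x) (hs : 0 < s) :
    Tp N c J s0 q (s • x) := by
  intro y hy
  rw [gn_smul_left, gn_smul_left]
  have h1 : gn (rf N (tN N)) (rf N (dd N c J s0)) x y + q * gn (rf N (tN N)) (rf N c) x y ≤ 0 :=
    h y hy
  have := mul_nonpos_of_nonneg_of_nonpos hs.le h1
  linarith

theorem Inv.scale (hi : Inv N c J s0 x p) (hl : x'.length = N) (hs : 0 < s)
    (he : lv N x' = s • lv N x) : Inv N c J s0 x' p := by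
  refine ⟨hl, by rw [he]; exact hi.ext.smul hs, ?_, hi.nonneg, by rw [he]; exact hi.top.scale hs,
    ?_⟩
  · rw [he, map_smul, smul_eq_mul]; exact mul_pos hs hi.pos
  · rcases hi.prev with h | ⟨z, h1, h2, h3, h4⟩
    · exact Or.inl h
    · refine Or.inr ⟨z, h1, h2, by rw [he]; exact h3.smul_right hs, ?_⟩
      unfold gd gc at h4 ⊢
      rw [he, gn_smul_left, gn_smul_left]
      linear_combination s * h4

/-- `x` is the only maximiser for the parameters between `p` and `q`. -/
theorem Inv.unique (hi : Inv N c J s0 x p) (h : St0 N c J s0) (hq : Tp N c J s0 q (lv N x))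
    (h1 : p < l) (h2 : l < q) {y : EuclideanSpace ℝ (Fin N)} (hy : InC (rf N) [] J y)
    (h0 : 0 ≤ gd N c J s0 (lv N x) y + l * gc N c (lv N x) y) : ∃ s : ℝ, y = s • lv N x := by
  obtain ⟨e1, e2⟩ := pencil_eq hi.top hq h1 h2 hy h0
  exact unique_of_ext hi.ext hi.pos h.tauJ (LinearMap.ext fun z => by
    rw [rf_negV, LinearMap.neg_apply]) (h1.trans h2) hi.top hq
    (fun e he _ hd => h.two hi.ext he hi.pos hd) hy e1 e2

end More

/-! ### Linear programs -/

variable {m n : ℕ}

/-- The auxiliary objective function. -/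
def auxD (x : Inp) : List ℤ := dd (crow x).length (crow x) (rowsJ x) (startV x)

/-- The next vertex after `u`. -/
def nxtV (x : Inp) (u : List ℚ) : Option (List ℤ) :=
  nxtW (crow x) (auxD x) (rowsJ x) (zrow (u ++ [1]))

/-- The next vertex, or the final answer. -/
noncomputable def nxt (A : Fin m → Fin n → ℚ) (b : Fin m → ℚ) (c v u : Fin n → ℚ) :
    (Fin n → ℚ) ⊕ Option (Fin n → ℚ) :=
  (nxtV (inp A b c v) (List.ofFn u)).elim (Sum.inr none) fun w =>
    if 0 < w.getD n 0 then Sum.inl (xq n w) else Sum.inr (some (dq n w))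

/-- The invariant. -/
def InvP (A : Fin m → Fin n → ℚ) (b : Fin m → ℚ) (c v u : Fin n → ℚ) (p : ℝ) : Prop :=
  Inv (crow (inp A b c v)).length (crow (inp A b c v)) (rowsJ (inp A b c v))
    (startV (inp A b c v)) (startV (inp A b c u)) p

/-- The point `u` is on top for the parameter `q`. -/
def TpP (A : Fin m → Fin n → ℚ) (b : Fin m → ℚ) (c v u : Fin n → ℚ) (q : ℝ) : Prop :=
  Tp (crow (inp A b c v)).length (crow (inp A b c v)) (rowsJ (inp A b c v))
    (startV (inp A b c v)) q (lv (crow (inp A b c v)).length (startV (inp A b c u)))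

variable {A : Fin m → Fin n → ℚ} {b : Fin m → ℚ} {c v u : Fin n → ℚ} {p q : ℝ}

theorem st0 (hv : re v ∈ Set.extremePoints ℝ (polyhedron A b)) :
    St0 (crow (inp A b c v)).length (crow (inp A b c v)) (rowsJ (inp A b c v))
      (startV (inp A b c v)) := by
  have h := start_vx (c := c) hv
  exact ⟨by rw [length_crow]; omega, rfl, len_rowsI.jl, tau_mem_jl _ _, h.len, h.ext, h.pos⟩

theorem invP_start (hv : re v ∈ Set.extremePoints ℝ (polyhedron A b)) : InvP A b c v v 0 :=
  (st0 hv).inv

theorem lv_startV (u : Fin n → ℚ) : lv (crow (inp A b c v)).length (startV (inp A b c u)) =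
    ((startV (inp A b c u)).getD n 0 : ℝ) • eN length_crow (re u, 1) := by
  have h := lv_xq (length_crow (A := A) (b := b) (c := c) (v := v))
    (getD_startV (A := A) (b := b) (c := c) (v := u))
  rw [xq_startV] at h
  exact h

theorem InvP.vertex (hi : InvP A b c v u p) : re u ∈ Set.extremePoints ℝ (polyhedron A b) := by
  have h := vertex_of_ext (c := c) (v := v) hi.ext (getD_startV (A := A) (b := b) (c := c) (v := u))
  rw [xq_startV] at h
  exact h

theorem nxt_spec (hv : re v ∈ Set.extremePoints ℝ (polyhedron A b)) (hi : InvP A b c v u p) :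
    ∃ q, p < q ∧ TpP A b c v u q ∧
      (∀ v', nxt A b c v u = Sum.inl v' → ImprovingEdge (polyhedron A b) c u v' ∧
        InvP A b c v v' q) ∧
      (nxt A b c v u = Sum.inr none → ∀ y ∈ polyhedron A b, obj c y ≤ obj c (re u)) ∧
      ∀ d, nxt A b c v u = Sum.inr (some d) → UnboundedEdge (polyhedron A b) c u d := by
  have h0 := st0 (c := c) hv
  set C := crow (inp A b c v) with hC
  set J := rowsJ (inp A b c v) with hJd
  set s := startV (inp A b c v) with hs
  set su := startV (inp A b c u) with hsu
  have hsu0 : 0 < su.getD n 0 := getD_startV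
  have hxu : xq n su = u := xq_startV
  obtain ⟨k1, k2⟩ := hi.step h0
  have hnx : nxt A b c v u = (nxtW C (dd C.length C J s) J su).elim (Sum.inr none) fun w =>
    if 0 < w.getD n 0 then Sum.inl (xq n w) else Sum.inr (some (dq n w)) := rfl
  cases hw : nxtW C (dd C.length C J s) J su with
  | none =>
    rw [hw, Option.elim_none] at hnx
    have h1 := k1 hw
    refine ⟨p + 1, by linarith, fun y hy => ?_, fun v' h => ?_, fun _ => ?_, fun d h => ?_⟩
    · have h2 := h1 y hy
      have h3 := hi.top y hy
      change gd C.length C J s (lv C.length su) y + (p + 1) * gc C.length C (lv C.length su) y ≤ 0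
      change gd C.length C J s (lv C.length su) y + p * gc C.length C (lv C.length su) y ≤ 0 at h3
      linarith
    · rw [hnx] at h; exact absurd h (by simp)
    · have h2 : Top C [] J su := by
        intro y hy
        have h3 := h1 y hy
        unfold gc gn at h3
        change rf C.length C y * rf C.length (tN C.length) (lv C.length su) ≤
          rf C.length C (lv C.length su) * rf C.length (tN C.length) y
        linarith
      have h3 := optimal_of_top (v := v) hsu0 h2
      rw [hxu] at h3
      exact h3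
    · rw [hnx] at h; exact absurd h (by simp)
  | some w =>
    rw [hw, Option.elim_some] at hnx
    obtain ⟨w1, w2, w3, w4, q, hpq, htq, hq⟩ := k2 w hw
    have hstep : Step C [] J su w := ⟨w1, hi.pos, w2, w3, w4⟩
    refine ⟨q, hpq, htq, fun v' h => ?_, fun h => ?_, fun d h => ?_⟩
    · by_cases hwn : 0 < w.getD n 0
      · rw [hnx, if_pos hwn, Sum.inl.injEq] at h
        subst h
        constructor
        · have := improving_of_step (v := v) hi.ext hstep hwn
          rw [hxu] at this
          exact this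
        · have hwR : (0 : ℝ) < w.getD n 0 := by exact_mod_cast hwn
          have hk : (0 : ℝ) < (startV (inp A b c (xq n w))).getD n 0 := by
            exact_mod_cast getD_startV
          have e1 := lv_xq (length_crow (A := A) (b := b) (c := c) (v := v)) hwn
          have e2 := lv_startV (A := A) (b := b) (c := c) (v := v) (xq n w)
          have e3 : lv C.length (startV (inp A b c (xq n w))) =
              (((startV (inp A b c (xq n w))).getD n 0 : ℝ) * (w.getD n 0 : ℝ)⁻¹) •
                lv C.length w := by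
            rw [hC, e2, e1, smul_smul, mul_assoc, inv_mul_cancel₀ hwR.ne', mul_one]
          refine (hq ?_).scale ?_ (mul_pos hk (inv_pos.2 hwR)) e3
          · change 0 < rf C.length (tau C) (lv C.length w)
            rw [hC, rf_tau_lv length_crow]
            exact hwR
          · rw [length_crow, startV_inp, length_zrow]
            simp
      · rw [hnx, if_neg hwn] at h; exact absurd h (by simp)
    · rw [hnx] at h
      split_ifs at h
      exact absurd h (by simp)
    · by_cases hwn : 0 < w.getD n 0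
      · rw [hnx, if_pos hwn] at h; exact absurd h (by simp)
      · rw [hnx, if_neg hwn, Sum.inr.injEq, Option.some.injEq] at h
        subst h
        have hw0 : w.getD n 0 = 0 := by
          have h1 := h0.tau_nonneg w2.mem
          change 0 ≤ rf C.length (tau C) (lv C.length w) at h1
          rw [hC, rf_tau_lv length_crow] at h1
          have h2 : 0 ≤ w.getD n 0 := by exact_mod_cast h1
          omega
        have := unbounded_of_step (v := v) hi.ext hstep hw0
        rw [hxu] at this
        exact this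

/-- The rule produces a path. -/
theorem exists_path (hv : re v ∈ Set.extremePoints ℝ (polyhedron A b)) :
    ∃ (N : ℕ) (x : ℕ → Fin n → ℚ) (d : Option (Fin n → ℚ)),
      IsSimplexPath (polyhedron A b) c v N x d ∧
      (∀ k < N, nxt A b c v (x k) = Sum.inl (x (k + 1))) ∧ nxt A b c v (x N) = Sum.inr d := by
  classical
  have hfin := Pool.Agent.X239.CV.finite_vertices A b
  have key : ∀ (M : ℕ) (u : Fin n → ℚ) (p : ℝ), InvP A b c v u p →
      {y | y ∈ Set.extremePoints ℝ (polyhedron A b) ∧ obj c (re u) < obj c y}.ncard = M →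
      ∃ (N : ℕ) (x : ℕ → Fin n → ℚ) (d : Option (Fin n → ℚ)),
      IsSimplexPath (polyhedron A b) c u N x d ∧
      (∀ k < N, nxt A b c v (x k) = Sum.inl (x (k + 1))) ∧ nxt A b c v (x N) = Sum.inr d := by
    intro M
    induction M using Nat.strong_induction_on with
    | _ M ih =>
      intro u p hi hM
      obtain ⟨q, -, -, h1, h2, h3⟩ := nxt_spec hv hi
      cases hn : nxt A b c v u with
      | inr d =>
        refine ⟨0, fun _ => u, d, ⟨rfl, fun k _ => hi.vertex, fun k hk => by omega, fun hd => ?_,
          fun e he => ?_⟩, fun k hk => by omega, hn⟩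
        · subst hd; exact h2 hn
        · subst he; exact h3 e hn
      | inl v' =>
        obtain ⟨g2, g1⟩ := h1 v' hn
        obtain ⟨N, x, d, hp, hq, hr⟩ := ih _ (by
          rw [← hM]
          refine Set.ncard_lt_ncard ?_ (hfin.subset fun y hy => hy.1)
          rw [Set.ssubset_iff_of_subset]
          · refine ⟨re v', ⟨g1.vertex, g2.2⟩, fun h => lt_irrefl _ h.2⟩
          · intro y hy
            exact ⟨hy.1, g2.2.trans hy.2⟩) v' q g1 rfl
        obtain ⟨p1, p2, p3, p4, p5⟩ := hp
        obtain ⟨y, hy0, hy1⟩ : ∃ y : ℕ → Fin n → ℚ, y 0 = u ∧ ∀ k, y (k + 1) = x k :=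
          ⟨fun k => Nat.casesOn k u fun k => x k, rfl, fun _ => rfl⟩
        refine ⟨N + 1, y, d, ⟨hy0, fun k hk => ?_, fun k hk => ?_, fun hd => ?_, fun e he => ?_⟩,
          fun k hk => ?_, ?_⟩
        · cases k with
          | zero => rw [hy0]; exact hi.vertex
          | succ k => rw [hy1]; exact p2 k (by omega)
        · cases k with
          | zero => rw [hy1, hy0, p1]; exact g2
          | succ k => rw [hy1, hy1]; exact p3 k (by omega)
        · rw [hy1]; exact p4 hd
        · rw [hy1]; exact p5 e he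
        · cases k with
          | zero => rw [hy1, hy0, p1]; exact hn
          | succ k => rw [hy1, hy1]; exact hq k (by omega)
        · rw [hy1]; exact hr
  exact key _ v 0 (invP_start hv) rfl

/-- The parameters of the vertices on the path. -/
theorem exists_params (hv : re v ∈ Set.extremePoints ℝ (polyhedron A b)) {N : ℕ}
    {x : ℕ → Fin n → ℚ} (hx0 : x 0 = v)
    (hq : ∀ k < N, nxt A b c v (x k) = Sum.inl (x (k + 1))) :
    ∃ p : ℕ → ℝ, ∀ k ≤ N, InvP A b c v (x k) (p k) ∧ p k < p (k + 1) ∧
      TpP A b c v (x k) (p (k + 1)) ∧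
      (k < N → obj c (re (x k)) < obj c (re (x (k + 1)))) := by
  classical
  have key : ∀ (u : Fin n → ℚ) (p : ℝ), ∃ q, InvP A b c v u p → p < q ∧ TpP A b c v u q ∧
      ∀ v', nxt A b c v u = Sum.inl v' → ImprovingEdge (polyhedron A b) c u v' ∧
        InvP A b c v v' q := by
    intro u p
    by_cases hi : InvP A b c v u p
    · obtain ⟨q, h1, h2, h3, -⟩ := nxt_spec hv hi
      exact ⟨q, fun _ => ⟨h1, h2, h3⟩⟩
    · exact ⟨0, fun h => absurd h hi⟩
  choose f hf using key
  obtain ⟨p, hp0, hp1⟩ : ∃ p : ℕ → ℝ, p 0 = 0 ∧ ∀ k, p (k + 1) = f (x k) (p k) :=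
    ⟨fun k => Nat.rec 0 (fun k pk => f (x k) pk) k, rfl, fun _ => rfl⟩
  have hinv : ∀ k ≤ N, InvP A b c v (x k) (p k) := by
    intro k
    induction k with
    | zero => intro _; rw [hx0, hp0]; exact invP_start hv
    | succ k ih =>
      intro hk
      rw [hp1]
      exact ((hf _ _ (ih (by omega))).2.2 _ (hq k (by omega))).2
  refine ⟨p, fun k hk => ?_⟩
  obtain ⟨h1, h2, h3⟩ := hf _ _ (hinv k hk)
  rw [hp1]
  exact ⟨hinv k hk, h1, h2, fun hk' => (h3 _ (hq k hk')).1.2⟩

/-! ### The bound -/

/-- The rows of the linear program. -/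
noncomputable def aRR (A : Fin m → Fin n → ℚ) : Fin m ⊕ Fin n → Fin n → ℝ
  | Sum.inl i => fun j => (A i j : ℝ)
  | Sum.inr i => fun j => if i = j then -1 else 0

/-- The right-hand sides. -/
noncomputable def bRR (b : Fin m → ℚ) : Fin m ⊕ Fin n → ℝ
  | Sum.inl i => b i
  | Sum.inr _ => 0

theorem mem_Pn {y : Fin n → ℝ} : y ∈ Pn (aRR A) (bRR b) ↔ y ∈ polyhedron A b := by
  constructor
  · intro h
    refine ⟨fun i => h (Sum.inl i), fun j => ?_⟩
    have h1 := h (Sum.inr j)
    simp only [aRR, bRR, ite_mul, neg_mul, one_mul, zero_mul, Finset.sum_ite_eq,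
      Finset.mem_univ, if_true] at h1
    linarith
  · rintro ⟨h1, h2⟩ (i | j)
    · exact h1 i
    · have h3 := h2 j
      simp only [aRR, bRR, ite_mul, neg_mul, one_mul, zero_mul, Finset.sum_ite_eq,
        Finset.mem_univ, if_true]
      linarith

theorem inC_eN {y : Fin n → ℝ} (hy : y ∈ polyhedron A b) :
    InC (rf (crow (inp A b c v)).length) [] (rowsJ (inp A b c v)) (eN length_crow (y, 1)) :=
  ⟨by simp, (jl_nonpos_iff y 1).2 ⟨zero_le_one, fun i => by rw [mul_one]; exact hy.1 i, hy.2⟩⟩

theorem gn_eN {N : ℕ} (hN : N = n + 1) (r : List ℤ) (x y : Fin n → ℝ) :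
    gn (rf N (tN N)) (rf N r) (eN hN (x, 1)) (eN hN (y, 1)) =
      ∑ j : Fin n, (r.getD j 0 : ℝ) * y j - ∑ j : Fin n, (r.getD j 0 : ℝ) * x j := by
  have h1 : ∀ z : Fin n → ℝ, rf N (tN N) (eN hN (z, 1)) = 1 := by
    intro z
    rw [tN, rf_unitV (by omega)]
    simp [eN, hN]
  unfold gn
  rw [h1, h1, rf_eN, rf_eN]
  ring

/-- The number of vertices on the path. -/
theorem bound (hv : re v ∈ Set.extremePoints ℝ (polyhedron A b)) {D N : ℕ}
    {x : ℕ → Fin n → ℚ} (hx0 : x 0 = v)
    (hq : ∀ k < N, nxt A b c v (x k) = Sum.inl (x (k + 1)))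
    (hT : TD (aRR A) D (Finset.univ : Finset (Fin n))) :
    N + 1 ≤ 1 + n * ((m + n + 1) ^ (2 ^ D)) ^ D := by
  classical
  have h0 := st0 (c := c) hv
  obtain ⟨p, hp⟩ := exists_params hv hx0 hq
  set dl := dd (crow (inp A b c v)).length (crow (inp A b c v)) (rowsJ (inp A b c v))
    (startV (inp A b c v)) with hdl
  set g : Fin n → ℝ := fun j => (dl.getD j 0 : ℝ) with hg
  set h : Fin n → ℝ := fun j => ((crow (inp A b c v)).getD j 0 : ℝ) with hh
  set L : ℕ → ℝ := fun k => (p k + p (k + 1)) / 2 with hL
  have hmono : ∀ j k, j < k → k ≤ N → p (j + 1) ≤ p k := by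
    intro j k hjk
    induction k, hjk using Nat.le_induction with
    | base => intro _; exact le_rfl
    | succ k hjk ih => intro hk; exact (ih (by omega)).trans (hp k (by omega)).2.1.le
  have hLlt : ∀ j k, j < k → k ≤ N → L j < L k := by
    intro j k hjk hk
    have h1 := hmono j k hjk hk
    have h2 := (hp j (by omega)).2.1
    have h3 := (hp k hk).2.1
    simp only [hL]
    linarith
  have hobj : ∀ j k, j < k → k ≤ N → obj c (re (x j)) < obj c (re (x k)) := by
    intro j k hjk
    induction k, hjk using Nat.le_induction with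
    | base => intro hk; exact (hp j (by omega)).2.2.2 (by omega)
    | succ k hjk ih => intro hk; exact (ih (by omega)).trans ((hp k (by omega)).2.2.2 (by omega))
  have hLinj : ∀ j ≤ N, ∀ k ≤ N, L j = L k → j = k := by
    intro j hj k hk hjk
    rcases lt_trichotomy j k with h1 | h1 | h1
    · exact absurd hjk (hLlt j k h1 hk).ne
    · exact h1
    · exact absurd hjk (hLlt k j h1 hj).ne'
  have huniq : ∀ k ≤ N, ∀ y ∈ polyhedron A b, y ≠ re (x k) → vl g h (L k) y < vl g h (L k) (re (x k)) := by
    intro k hk y hy hne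
    by_contra hcon
    push Not at hcon
    obtain ⟨i1, i2, i3, -⟩ := hp k hk
    have hk0 : (0 : ℝ) < (startV (inp A b c (x k))).getD n 0 := by exact_mod_cast getD_startV
    have hval : ∀ z : Fin n → ℝ, vl g h (L k) z = ∑ j : Fin n, (dl.getD j 0 : ℝ) * z j +
        L k * ∑ j : Fin n, ((crow (inp A b c v)).getD j 0 : ℝ) * z j := by
      intro z
      unfold vl
      rw [Finset.mul_sum, ← Finset.sum_add_distrib]
      exact Finset.sum_congr rfl fun j _ => by simp only [hg, hh]; ring
    obtain ⟨s, hs⟩ := i1.unique h0 i3 (l := L k) (by simp only [hL]; linarith)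
      (by simp only [hL]; linarith) (inC_eN hy) (by
        unfold gd gc
        rw [lv_startV, gn_smul_left, gn_smul_left, gn_eN, gn_eN]
        rw [hval, hval] at hcon
        have h5 := mul_nonneg hk0.le (sub_nonneg.2 hcon)
        linarith)
    rw [lv_startV, smul_smul, ← map_smul] at hs
    have h6 := (eN length_crow).injective hs
    have h7 := congrArg Prod.snd h6
    have h8 := congrArg Prod.fst h6
    simp only [Prod.smul_snd, Prod.smul_fst, smul_eq_mul, mul_one] at h7 h8
    rw [← h7, one_smul] at h8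
    exact hne h8
  set X : ℝ → Fin n → ℝ := fun l => if hl : ∃ k ≤ N, L k = l then re (x hl.choose) else 0 with hX
  have hXL : ∀ k ≤ N, X (L k) = re (x k) := by
    intro k hk
    have hl : ∃ k' ≤ N, L k' = L k := ⟨k, hk, rfl⟩
    simp only [hX]
    rw [dif_pos hl]
    rw [hLinj _ hl.choose_spec.1 k hk hl.choose_spec.2]
  set Λ : Finset ℝ := (Finset.range (N + 1)).image L with hΛ
  have hmem : ∀ l ∈ Λ, ∃ k ≤ N, L k = l := by
    intro l hl
    obtain ⟨k, hk, rfl⟩ := Finset.mem_image.1 hl
    exact ⟨k, by have := Finset.mem_range.1 hk; omega, rfl⟩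
  have hcardΛ : Λ.card = N + 1 := by
    rw [hΛ, Finset.card_image_of_injOn, Finset.card_range]
    intro j hj k hk hjk
    rw [Finset.mem_coe, Finset.mem_range] at hj hk
    exact hLinj j (by omega) k (by omega) hjk
  have hUM : UM (aRR A) (bRR b) g h Finset.univ Λ X 0 := by
    intro l hl
    obtain ⟨k, hk, rfl⟩ := hmem l hl
    rw [hXL k hk]
    refine ⟨mem_Pn.2 (hp k hk).1.vertex.1, fun j hj => absurd (Finset.mem_univ j) hj,
      fun y hy _ hne => huniq k hk y (mem_Pn.1 hy) hne⟩
  have hinj : Set.InjOn X Λ := by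
    intro l hl l' hl' hll
    obtain ⟨j, hj, rfl⟩ := hmem l hl
    obtain ⟨k, hk, rfl⟩ := hmem l' hl'
    rw [hXL j hj, hXL k hk] at hll
    rcases lt_trichotomy j k with h1 | h1 | h1
    · have := hobj j k h1 hk
      rw [hll] at this
      exact absurd this (lt_irrefl _)
    · rw [h1]
    · have := hobj k j h1 hj
      rw [hll] at this
      exact absurd this (lt_irrefl _)
  have hfin := UM.card_le hT ((m + n + 1) ^ (2 ^ D)) (by simp) Λ X 0 hUM hinj
  rw [hcardΛ, Finset.card_univ, Fintype.card_fin] at hfin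
  exact hfin

end Pool.Agent.X97.SV
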