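import Mathlib
set_option autoImplicit false

/-!
# Unique maximisers of a pencil of objective functions on polyhedra of small treedepth
-/

namespace Pool.Agent.X97.SV

open Finset

/-- The columns `X` are built by disjoint unions without common rows, and by at most `k` nested
insertions of a column. -/
inductive TD {ι : Type} {n : ℕ} (a : ι → Fin n → ℝ) : ℕ → Finset (Fin n) → Prop
  | empty (k : ℕ) : TD a k ∅
  | union {k : ℕ} {X Y : Finset (Fin n)} : TD a k X → TD a k Y → Disjoint X Y →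
      (∀ i, (∀ j ∈ X, a i j = 0) ∨ ∀ j ∈ Y, a i j = 0) → TD a k (X ∪ Y)
  | insert {k : ℕ} {X : Finset (Fin n)} (t : Fin n) : t ∉ X → TD a k X → TD a (k + 1) (insert t X)

variable {ι : Type} {n : ℕ} {a : ι → Fin n → ℝ}

theorem span_zero {T : Set ι} {X : Finset (Fin n)} (h : ∀ i ∈ T, ∀ j ∈ X, a i j = 0)
    {φ : Fin n → ℝ} (hφ : φ ∈ Submodule.span ℝ (a '' T)) : ∀ j ∈ X, φ j = 0 := by
  refine Submodule.span_induction (p := fun φ _ => ∀ j ∈ X, φ j = 0) ?_ ?_ ?_ ?_ hφ
  · rintro _ ⟨i, hi, rfl⟩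
    exact h i hi
  · intro j _; rfl
  · intro u v _ _ hu hv j hj
    rw [Pi.add_apply, hu j hj, hv j hj, add_zero]
  · intro c u _ hu j hj
    rw [Pi.smul_apply, hu j hj, smul_zero]

/-- The functionals vanishing on `X` which are combinations of at most `2 ^ k` rows from `T`. -/
def Small (a : ι → Fin n → ℝ) (k : ℕ) (T : Set ι) (X : Finset (Fin n)) : Set (Fin n → ℝ) :=
  {ψ | (∀ j ∈ X, ψ j = 0) ∧ ∃ S : Finset ι, (S : Set ι) ⊆ T ∧ S.card ≤ 2 ^ k ∧
    ψ ∈ Submodule.span ℝ (a '' S)}

theorem span_small {k : ℕ} {X : Finset (Fin n)} (h : TD a k X) : ∀ (T : Set ι) (φ : Fin n → ℝ),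
    φ ∈ Submodule.span ℝ (a '' T) → (∀ j ∈ X, φ j = 0) →
    φ ∈ Submodule.span ℝ (Small a k T X) := by
  classical
  induction h with
  | empty k =>
    intro T φ hφ _
    refine Submodule.span_mono ?_ hφ
    rintro _ ⟨i, hi, rfl⟩
    refine ⟨fun j hj => by simp at hj, {i}, by simpa using hi, ?_, ?_⟩
    · rw [card_singleton]; exact Nat.one_le_two_pow
    · exact Submodule.subset_span ⟨i, by simp, rfl⟩
  | @union k X Y _ _ hd hr ihX ihY =>
    intro T φ hφ h0
    set T1 : Set ι := {i | i ∈ T ∧ ¬ ∀ j ∈ X, a i j = 0} with hT1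
    set T2 : Set ι := {i | i ∈ T ∧ ∀ j ∈ X, a i j = 0} with hT2
    have hTT : T = T1 ∪ T2 := by
      ext i
      simp only [hT1, hT2, Set.mem_union, Set.mem_ofPred_eq]
      tauto
    rw [hTT, Set.image_union, Submodule.span_union, Submodule.mem_sup] at hφ
    obtain ⟨φ1, h1, φ2, h2, rfl⟩ := hφ
    have hY1 : ∀ i ∈ T1, ∀ j ∈ Y, a i j = 0 := fun i hi => (hr i).resolve_left hi.2
    have hX2 : ∀ i ∈ T2, ∀ j ∈ X, a i j = 0 := fun i hi => hi.2
    have z1 := span_zero hY1 h1
    have z2 := span_zero hX2 h2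
    have z1' : ∀ j ∈ X, φ1 j = 0 := fun j hj => by
      have := h0 j (mem_union_left _ hj)
      rw [Pi.add_apply, z2 j hj, add_zero] at this
      exact this
    have z2' : ∀ j ∈ Y, φ2 j = 0 := fun j hj => by
      have := h0 j (mem_union_right _ hj)
      rw [Pi.add_apply, z1 j hj, zero_add] at this
      exact this
    refine Submodule.add_mem _ ?_ ?_
    · refine Submodule.span_mono ?_ (ihX T1 φ1 h1 z1')
      rintro ψ ⟨p1, S, p2, p3, p4⟩
      refine ⟨fun j hj => ?_, S, fun i hi => (p2 hi).1, p3, p4⟩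
      rcases mem_union.1 hj with hj | hj
      · exact p1 j hj
      · exact span_zero (fun i hi => hY1 i (p2 hi)) p4 j hj
    · refine Submodule.span_mono ?_ (ihY T2 φ2 h2 z2')
      rintro ψ ⟨p1, S, p2, p3, p4⟩
      refine ⟨fun j hj => ?_, S, fun i hi => (p2 hi).1, p3, p4⟩
      rcases mem_union.1 hj with hj | hj
      · exact span_zero (fun i hi => hX2 i (p2 hi)) p4 j hj
      · exact p1 j hj
  | @insert k X t ht _ ih =>
    intro T φ hφ h0
    have h1 := ih T φ hφ fun j hj => h0 j (mem_insert_of_mem hj)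
    by_cases hall : ∀ ψ ∈ Small a k T X, ψ t = 0
    · refine Submodule.span_mono ?_ h1
      rintro ψ hψ
      obtain ⟨p1, S, p2, p3, p4⟩ := id hψ
      refine ⟨fun j hj => ?_, S, p2, p3.trans (Nat.pow_le_pow_right (by norm_num) (by omega)), p4⟩
      rcases mem_insert.1 hj with rfl | hj
      · exact hall ψ hψ
      · exact p1 j hj
    · push Not at hall
      obtain ⟨ψ0, hψ0, hne⟩ := hall
      obtain ⟨q1, S0, q2, q3, q4⟩ := hψ0
      set π : (Fin n → ℝ) →ₗ[ℝ] (Fin n → ℝ) :=
        LinearMap.id - ((LinearMap.proj t : (Fin n → ℝ) →ₗ[ℝ] ℝ).smulRight ((ψ0 t)⁻¹ • ψ0)) with hπ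
      have hπa : ∀ ψ, π ψ = ψ - (ψ t * (ψ0 t)⁻¹) • ψ0 := by
        intro ψ
        simp [hπ, smul_smul]
      have hφt : φ t = 0 := h0 t (mem_insert_self _ _)
      have hφ' : π φ = φ := by rw [hπa, hφt, zero_mul, zero_smul, sub_zero]
      rw [← hφ']
      have h2 : π φ ∈ (Submodule.span ℝ (Small a k T X)).map π := Submodule.mem_map_of_mem h1
      rw [Submodule.map_span] at h2
      refine Submodule.span_mono ?_ h2
      rintro _ ⟨ψ, ⟨p1, S, p2, p3, p4⟩, rfl⟩
      rw [hπa]
      refine ⟨fun j hj => ?_, S ∪ S0, ?_, ?_, ?_⟩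
      · rcases mem_insert.1 hj with rfl | hj
        · simp only [Pi.sub_apply, Pi.smul_apply, smul_eq_mul]
          field_simp
          ring
        · simp only [Pi.sub_apply, Pi.smul_apply, smul_eq_mul, p1 j hj, q1 j hj, mul_zero,
            sub_zero]
      · rw [coe_union]; exact Set.union_subset p2 q2
      · have := card_union_le S S0
        rw [pow_succ]; omega
      · rw [coe_union]
        refine Submodule.sub_mem _ ?_ (Submodule.smul_mem _ _ ?_)
        · exact Submodule.span_mono (Set.image_mono Set.subset_union_left) p4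
        · exact Submodule.span_mono (Set.image_mono Set.subset_union_right) q4

/-- If the rows of `T` determine the coordinate `t`, then at most `2 ^ k` of them do. -/
theorem det_small {k : ℕ} {X : Finset (Fin n)} (h : TD a k X) {t : Fin n} (ht : t ∉ X)
    (T : Set ι) (hv : ∀ y : Fin n → ℝ, (∀ j, j ∉ insert t X → y j = 0) →
      (∀ i ∈ T, ∑ j, a i j * y j = 0) → y t = 0) :
    ∃ S : Finset ι, (S : Set ι) ⊆ T ∧ S.card ≤ 2 ^ k ∧ ∀ y : Fin n → ℝ,
      (∀ j, j ∉ insert t X → y j = 0) → (∀ i ∈ S, ∑ j, a i j * y j = 0) → y t = 0 := by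
  classical
  set U : Submodule ℝ (Fin n → ℝ) :=
    { carrier := {ψ | ∀ j ∈ insert t X, ψ j = 0}
      add_mem' := fun {u v} hu hv j hj => by
        rw [Pi.add_apply, hu j hj, hv j hj, add_zero]
      zero_mem' := fun j _ => rfl
      smul_mem' := fun c u hu j hj => by
        rw [Pi.smul_apply, hu j hj, smul_zero] } with hU
  have hmem : Pi.single t (1 : ℝ) ∈ Submodule.span ℝ (a '' T) ⊔ U := by
    by_contra hcon
    obtain ⟨f, hf1, hf2⟩ := Submodule.exists_le_ker_of_notMem hcon
    have hfy : ∀ z : Fin n → ℝ, f z = ∑ j, z j * f (Pi.single j 1) := by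
      intro z
      conv_lhs => rw [show z = ∑ j, z j • (Pi.single j (1 : ℝ) : Fin n → ℝ) from by
        ext i
        simp [Finset.sum_apply, Pi.single_apply]]
      rw [map_sum]
      exact Finset.sum_congr rfl fun j _ => by rw [map_smul, smul_eq_mul]
    refine hf1 (hv (fun j => f (Pi.single j 1)) (fun j hj => ?_) fun i hi => ?_)
    · have h1 : (Pi.single j (1 : ℝ) : Fin n → ℝ) ∈ U := by
        intro i hi
        rw [Pi.single_apply, if_neg]
        rintro rfl
        exact hj hi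
      exact hf2 (Submodule.mem_sup_right h1)
    · rw [← hfy]
      exact hf2 (Submodule.mem_sup_left (Submodule.subset_span ⟨i, hi, rfl⟩))
  rw [Submodule.mem_sup] at hmem
  obtain ⟨φ, hφ, u, hu, hφu⟩ := hmem
  have hφX : ∀ j ∈ X, φ j = 0 := fun j hj => by
    have h1 := congrFun hφu j
    rw [Pi.add_apply, hu j (mem_insert_of_mem hj), add_zero, Pi.single_apply, if_neg] at h1
    · exact h1
    · rintro rfl; exact ht hj
  have hφt : φ t = 1 := by
    have h1 := congrFun hφu t
    rw [Pi.add_apply, hu t (mem_insert_self _ _), add_zero, Pi.single_eq_same] at h1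
    exact h1
  have h1 := span_small h T φ hφ hφX
  obtain ⟨ψ, ⟨p1, S, p2, p3, p4⟩, hne⟩ : ∃ ψ ∈ Small a k T X, ψ t ≠ 0 := by
    by_contra hcon
    push Not at hcon
    have : φ t = 0 := by
      refine Submodule.span_induction (p := fun φ _ => φ t = 0) (fun ψ hψ => hcon ψ hψ) rfl
        (fun u v _ _ hu hv => by rw [Pi.add_apply, hu, hv, add_zero])
        (fun c u _ hu => by rw [Pi.smul_apply, hu, smul_zero]) h1
    rw [hφt] at this
    exact one_ne_zero this
  refine ⟨S, p2, p3, fun y hy hS => ?_⟩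
  have h2 : ∑ j, ψ j * y j = 0 := by
    refine Submodule.span_induction (p := fun ψ _ => ∑ j, ψ j * y j = 0) ?_ ?_ ?_ ?_ p4
    · rintro _ ⟨i, hi, rfl⟩
      exact hS i hi
    · simp
    · intro u v _ _ hu hv
      simp only [Pi.add_apply, add_mul, Finset.sum_add_distrib, hu, hv, add_zero]
    · intro c u _ hu
      simp only [Pi.smul_apply, smul_eq_mul, mul_assoc]
      rw [← Finset.mul_sum, hu, mul_zero]
  rw [Finset.sum_eq_single t] at h2
  · exact (mul_eq_zero.1 h2).resolve_left hne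
  · intro j _ hj
    by_cases hjX : j ∈ X
    · rw [p1 j hjX, zero_mul]
    · rw [hy j (by rw [mem_insert]; tauto), mul_zero]
  · intro h; exact absurd (mem_univ t) h

/-! ### Counting -/

/-- The polyhedron. -/
def Pn (a : ι → Fin n → ℝ) (β : ι → ℝ) : Set (Fin n → ℝ) := {y | ∀ i, ∑ j, a i j * y j ≤ β i}

/-- The values of the pencil. -/
def vl (g h : Fin n → ℝ) (l : ℝ) (y : Fin n → ℝ) : ℝ := ∑ j, (g j + l * h j) * y j

variable {β : ι → ℝ} {g h : Fin n → ℝ}

/-- `x l` is the unique maximiser for the parameter `l` among the points which agree with `θ`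
outside `Z`. -/
def UM (a : ι → Fin n → ℝ) (β : ι → ℝ) (g h : Fin n → ℝ) (Z : Finset (Fin n)) (Λ : Finset ℝ)
    (x : ℝ → Fin n → ℝ) (θ : Fin n → ℝ) : Prop :=
  ∀ l ∈ Λ, x l ∈ Pn a β ∧ (∀ j, j ∉ Z → x l j = θ j) ∧
    ∀ y ∈ Pn a β, (∀ j, j ∉ Z → y j = θ j) → y ≠ x l → vl g h l y < vl g h l (x l)

theorem between {Z : Finset (Fin n)} {Λ : Finset ℝ} {x : ℝ → Fin n → ℝ} {θ : Fin n → ℝ}
    (hx : UM a β g h Z Λ x θ) {p q r : ℝ} (hp : p ∈ Λ) (hq : q ∈ Λ) (hr : r ∈ Λ) (h1 : p ≤ q)
    (h2 : q ≤ r) (hpr : x p = x r) : x q = x r := by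
  by_contra hne
  have e : ∀ z, (r - p) * vl g h q z = (r - q) * vl g h p z + (q - p) * vl g h r z := by
    intro z
    simp only [vl, Finset.mul_sum, ← Finset.sum_add_distrib]
    exact Finset.sum_congr rfl fun j _ => by ring
  obtain ⟨q1, q2, q3⟩ := hx q hq
  obtain ⟨p1, p2, p3⟩ := hx p hp
  obtain ⟨r1, r2, r3⟩ := hx r hr
  have a1 := q3 (x r) r1 r2 (Ne.symm hne)
  have a2 := r3 (x q) q1 q2 hne
  have a3 := p3 (x q) q1 q2 (by rw [hpr]; exact hne)
  rw [hpr] at a3
  have e1 := e (x q)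
  have e2 := e (x r)
  rcases h1.lt_or_eq with h1 | h1
  · have h3 : 0 < r - p := by linarith
    nlinarith [mul_lt_mul_of_pos_left a1 h3, mul_le_mul_of_nonneg_left a2.le (sub_nonneg.2 h1.le),
      mul_le_mul_of_nonneg_left a3.le (sub_nonneg.2 h2)]
  · exact hne (h1 ▸ hpr)

/-- Replace the coordinates outside `X`. -/
def mix (X : Finset (Fin n)) (y z : Fin n → ℝ) : Fin n → ℝ := fun j => if j ∈ X then y j else z j

theorem mix_row {X Y : Finset (Fin n)} {i : ι} {y z : Fin n → ℝ}
    (hi : (∀ j ∈ X, a i j = 0) ∨ ∀ j ∈ Y, a i j = 0) (hyz : ∀ j, j ∉ X ∪ Y → y j = z j) :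
    ∑ j, a i j * mix X y z j = ∑ j, a i j * y j ∨ ∑ j, a i j * mix X y z j = ∑ j, a i j * z j := by
  rcases hi with hi | hi
  · right
    refine Finset.sum_congr rfl fun j _ => ?_
    unfold mix
    split_ifs with hj
    · rw [hi j hj, zero_mul, zero_mul]
    · rfl
  · left
    refine Finset.sum_congr rfl fun j _ => ?_
    unfold mix
    split_ifs with hj
    · rfl
    · by_cases hjY : j ∈ Y
      · rw [hi j hjY, zero_mul, zero_mul]
      · rw [hyz j (by rw [mem_union]; tauto)]

theorem mix_mem {X Y : Finset (Fin n)} {y z : Fin n → ℝ}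
    (hr : ∀ i, (∀ j ∈ X, a i j = 0) ∨ ∀ j ∈ Y, a i j = 0) (hyz : ∀ j, j ∉ X ∪ Y → y j = z j)
    (hy : y ∈ Pn a β) (hz : z ∈ Pn a β) : mix X y z ∈ Pn a β := by
  intro i
  rcases mix_row (hr i) hyz with h | h
  · rw [h]; exact hy i
  · rw [h]; exact hz i

theorem mix_vl (X : Finset (Fin n)) (l : ℝ) (y z : Fin n → ℝ) :
    vl g h l (mix X y z) = vl g h l z + ∑ j ∈ X, (g j + l * h j) * (y j - z j) := by
  have h1 : ∑ j ∈ X, (g j + l * h j) * (y j - z j) =
      ∑ j, if j ∈ X then (g j + l * h j) * (y j - z j) else 0 := by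
    simp [Finset.sum_ite_mem]
  rw [h1]
  unfold vl mix
  rw [← Finset.sum_add_distrib]
  refine Finset.sum_congr rfl fun j _ => ?_
  split_ifs <;> ring

/-- The part in `X` of the unique maximisers. -/
theorem UM.part {X Y : Finset (Fin n)} {Λ : Finset ℝ} {x : ℝ → Fin n → ℝ} {θ : Fin n → ℝ}
    (hx : UM a β g h (X ∪ Y) Λ x θ)
    (hr : ∀ i, (∀ j ∈ X, a i j = 0) ∨ ∀ j ∈ Y, a i j = 0) {l0 : ℝ} (hl0 : l0 ∈ Λ) :
    UM a β g h X Λ (fun l => mix X (x l) (x l0)) (x l0) := by
  intro l hl
  obtain ⟨x1, x2, x3⟩ := hx l hl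
  obtain ⟨y1, y2, -⟩ := hx l0 hl0
  have hag : ∀ j, j ∉ X ∪ Y → x l j = x l0 j := fun j hj => by rw [x2 j hj, y2 j hj]
  refine ⟨mix_mem hr hag x1 y1, fun j hj => by simp [mix, hj], fun y hy hyX hne => ?_⟩
  -- move `y` to the point `x l`
  have hyl : ∀ j, j ∉ X ∪ Y → y j = x l j := fun j hj => by
    rw [hyX j (fun h => hj (mem_union_left _ h)), hag j hj]
  have h1 := x3 (mix X y (x l)) (mix_mem hr hyl hy x1) (fun j hj => by
    rw [mem_union, not_or] at hj
    simp only [mix, if_neg hj.1]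
    exact x2 j (by rw [mem_union]; tauto)) (fun he => hne (by
      ext j
      by_cases hj : j ∈ X
      · have := congrFun he j
        simp only [mix, if_pos hj] at this ⊢
        exact this
      · rw [hyX j hj]; simp [mix, hj]))
  have e1 : y = mix X y (x l0) := by
    ext j
    by_cases hj : j ∈ X
    · simp [mix, hj]
    · simp [mix, hj, hyX j hj]
  rw [e1]
  rw [mix_vl] at h1 ⊢
  beta_reduce
  rw [mix_vl]
  have e2 : ∑ j ∈ X, (g j + l * h j) * (y j - x l0 j) =
      ∑ j ∈ X, (g j + l * h j) * (y j - x l j) + ∑ j ∈ X, (g j + l * h j) * (x l j - x l0 j) := by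
    rw [← Finset.sum_add_distrib]
    exact Finset.sum_congr rfl fun j _ => by ring
  rw [e2]
  linarith

/-- A unique maximiser is a vertex. -/
theorem UM.vertex [Finite ι] {Z : Finset (Fin n)} {Λ : Finset ℝ} {x : ℝ → Fin n → ℝ}
    {θ : Fin n → ℝ} (hx : UM a β g h Z Λ x θ) {l : ℝ} (hl : l ∈ Λ) (y : Fin n → ℝ)
    (hy : ∀ j, j ∉ Z → y j = 0) (h0 : ∀ i, ∑ j, a i j * x l j = β i → ∑ j, a i j * y j = 0) :
    y = 0 := by
  classical
  cases nonempty_fintype ι
  obtain ⟨x1, x2, x3⟩ := hx l hl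
  by_contra hne
  obtain ⟨ε, hε, hεP⟩ : ∃ ε : ℝ, 0 < ε ∧ ∀ i, ε * |∑ j, a i j * y j| ≤
      β i - ∑ j, a i j * x l j := by
    have key : ∀ s : Finset ι, ∃ ε : ℝ, 0 < ε ∧ ∀ i ∈ s, ε * |∑ j, a i j * y j| ≤
        β i - ∑ j, a i j * x l j := by
      intro s
      induction s using Finset.induction_on with
      | empty => exact ⟨1, one_pos, by simp⟩
      | insert i s _ ih =>
        obtain ⟨ε, hε, h1⟩ := ih
        by_cases hi : ∑ j, a i j * x l j = β i
        · refine ⟨ε, hε, fun k hk => ?_⟩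
          rcases mem_insert.1 hk with rfl | hk
          · rw [h0 _ hi, hi]; simp
          · exact h1 k hk
        · have hpos : 0 < β i - ∑ j, a i j * x l j := by
            have := lt_of_le_of_ne (x1 i) hi
            linarith
          refine ⟨min ε ((β i - ∑ j, a i j * x l j) / (|∑ j, a i j * y j| + 1)),
            lt_min hε (by positivity), fun k hk => ?_⟩
          rcases mem_insert.1 hk with rfl | hk
          · refine (mul_le_mul_of_nonneg_right (min_le_right _ _) (abs_nonneg _)).trans ?_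
            rw [div_mul_eq_mul_div, div_le_iff₀ (by positivity)]
            nlinarith [abs_nonneg (∑ j, a k j * y j)]
          · exact (mul_le_mul_of_nonneg_right (min_le_left _ _) (abs_nonneg _)).trans (h1 k hk)
    obtain ⟨ε, hε, h1⟩ := key univ
    exact ⟨ε, hε, fun i => h1 i (mem_univ i)⟩
  have hmem : ∀ s : ℝ, |s| ≤ ε → (fun j => x l j + s * y j) ∈ Pn a β := by
    intro s hs i
    have e : ∑ j, a i j * (x l j + s * y j) = ∑ j, a i j * x l j + s * ∑ j, a i j * y j := by
      rw [Finset.mul_sum, ← Finset.sum_add_distrib]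
      exact Finset.sum_congr rfl fun j _ => by ring
    rw [e]
    have h2 : s * ∑ j, a i j * y j ≤ ε * |∑ j, a i j * y j| := by
      refine (le_abs_self _).trans ?_
      rw [abs_mul]
      exact mul_le_mul_of_nonneg_right hs (abs_nonneg _)
    have := hεP i
    linarith
  have hval : ∀ s : ℝ, s ≠ 0 → |s| ≤ ε → vl g h l (fun j => x l j + s * y j) < vl g h l (x l) := by
    intro s hs0 hs
    refine x3 _ (hmem s hs) (fun j hj => by rw [hy j hj, mul_zero, add_zero, x2 j hj]) fun he => ?_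
    apply hne
    ext j
    have := congrFun he j
    have h3 : s * y j = 0 := by linarith
    exact (mul_eq_zero.1 h3).resolve_left hs0
  have e : ∀ s : ℝ, vl g h l (fun j => x l j + s * y j) =
      vl g h l (x l) + s * ∑ j, (g j + l * h j) * y j := by
    intro s
    unfold vl
    rw [Finset.mul_sum, ← Finset.sum_add_distrib]
    exact Finset.sum_congr rfl fun j _ => by ring
  have b1 := hval ε hε.ne' (by rw [abs_of_pos hε])
  have b2 := hval (-ε) (neg_ne_zero.2 hε.ne') (by rw [abs_neg, abs_of_pos hε])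
  rw [e] at b1 b2
  nlinarith

/-- The number of parameters. -/
theorem UM.card_le [Fintype ι] {k : ℕ} {Z : Finset (Fin n)} (hZ : TD a k Z) :
    ∀ (W : ℕ), (Fintype.card ι + 1) ^ (2 ^ k) ≤ W → ∀ (Λ : Finset ℝ) (x : ℝ → Fin n → ℝ)
      (θ : Fin n → ℝ), UM a β g h Z Λ x θ → Set.InjOn x Λ → Λ.card ≤ 1 + Z.card * W ^ k := by
  classical
  induction hZ with
  | empty k =>
    intro W _ Λ x θ hx hinj
    rw [card_empty, zero_mul, add_zero]
    refine Finset.card_le_one.2 fun p hp q hq => hinj hp hq ?_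
    ext j
    rw [(hx p hp).2.1 j (by simp), (hx q hq).2.1 j (by simp)]
  | @union k X Y _ _ hd hr ihX ihY =>
    intro W hW Λ x θ hx hinj
    rcases Λ.eq_empty_or_nonempty with rfl | hne
    · simp
    set m := Λ.min' hne with hm
    have hmΛ : m ∈ Λ := Finset.min'_mem _ _
    have hr' : ∀ i, (∀ j ∈ Y, a i j = 0) ∨ ∀ j ∈ X, a i j = 0 := fun i => (hr i).symm
    have hxX := hx.part hr hmΛ
    have hxY : UM a β g h Y Λ (fun l => mix Y (x l) (x m)) (x m) := by
      rw [union_comm] at hx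
      exact hx.part hr' hmΛ
    -- the first occurrences
    have hfirst : ∀ (X : Finset (Fin n)) (hX : UM a β g h X Λ (fun l => mix X (x l) (x m)) (x m))
        (B : ℕ), (∀ (Λ : Finset ℝ) (x : ℝ → Fin n → ℝ) (θ : Fin n → ℝ), UM a β g h X Λ x θ →
          Set.InjOn x Λ → Λ.card ≤ B) →
        (Λ.filter fun l => ∀ l' ∈ Λ, l' < l → mix X (x l') (x m) ≠ mix X (x l) (x m)).card ≤ B := by
      intro X hX B hB
      refine hB _ (fun l => mix X (x l) (x m)) (x m) (fun l hl => hX l (mem_filter.1 hl).1) ?_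
      intro p hp q hq hpq
      rcases lt_trichotomy p q with h | h | h
      · exact absurd hpq ((mem_filter.1 hq).2 p (mem_filter.1 hp).1 h)
      · exact h
      · exact absurd hpq.symm ((mem_filter.1 hp).2 q (mem_filter.1 hq).1 h)
    have hcX := hfirst X hxX _ (ihX W hW)
    have hcY := hfirst Y hxY _ (ihY W hW)
    set ΛX := Λ.filter fun l => ∀ l' ∈ Λ, l' < l → mix X (x l') (x m) ≠ mix X (x l) (x m) with hΛX
    set ΛY := Λ.filter fun l => ∀ l' ∈ Λ, l' < l → mix Y (x l') (x m) ≠ mix Y (x l) (x m) with hΛY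
    have hmX : m ∈ ΛX := mem_filter.2 ⟨hmΛ, fun l' hl' h => absurd h (not_lt.2 (Finset.min'_le _ _ hl'))⟩
    have hmY : m ∈ ΛY := mem_filter.2 ⟨hmΛ, fun l' hl' h => absurd h (not_lt.2 (Finset.min'_le _ _ hl'))⟩
    have hsub : Λ ⊆ ΛX ∪ ΛY := by
      intro l hl
      by_contra hcon
      rw [mem_union, not_or, hΛX, hΛY, mem_filter, mem_filter] at hcon
      push Not at hcon
      obtain ⟨p, hp, hpl, hpe⟩ := hcon.1 hl
      obtain ⟨q, hq, hql, hqe⟩ := hcon.2 hl
      have hmaxmem : max p q ∈ Λ := by rcases max_choice p q with h | h <;> rw [h] <;> assumption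
      have e1 : mix X (x (max p q)) (x m) = mix X (x l) (x m) :=
        between hxX hp hmaxmem hl (le_max_left _ _) (max_lt hpl hql).le hpe
      have e2 : mix Y (x (max p q)) (x m) = mix Y (x l) (x m) :=
        between hxY hq hmaxmem hl (le_max_right _ _) (max_lt hpl hql).le hqe
      have e3 : x (max p q) = x l := by
        ext j
        by_cases hjX : j ∈ X
        · have := congrFun e1 j
          simpa [mix, hjX] using this
        · by_cases hjY : j ∈ Y
          · have := congrFun e2 j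
            simpa [mix, hjY] using this
          · have hj : j ∉ X ∪ Y := by rw [mem_union]; tauto
            rw [(hx _ hmaxmem).2.1 j hj, (hx _ hl).2.1 j hj]
      have := hinj hmaxmem hl e3
      exact absurd (max_lt hpl hql) (by rw [this]; exact lt_irrefl _)
    have h1 := Finset.card_union_add_card_inter ΛX ΛY
    have h2 : 1 ≤ (ΛX ∩ ΛY).card := Finset.card_pos.2 ⟨m, mem_inter.2 ⟨hmX, hmY⟩⟩
    have h3 := Finset.card_le_card hsub
    rw [Finset.card_union_of_disjoint hd, add_mul]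
    omega
  | @insert k X t ht hX ih =>
    intro W hW Λ x θ hx hinj
    have hW' : (Fintype.card ι + 1) ^ (2 ^ k) ≤ W := le_trans
      (Nat.pow_le_pow_right (by omega) (Nat.pow_le_pow_right (by norm_num) (by omega))) hW
    have hW1 : 1 ≤ W := le_trans (Nat.one_le_pow _ _ (by omega)) hW'
    -- few rows determine the coordinate `t`
    have hdet : ∀ l, ∃ f : Fin (2 ^ k) → Option ι, l ∈ Λ →
        (∀ p i, f p = some i → ∑ j, a i j * x l j = β i) ∧
        ∀ y : Fin n → ℝ, (∀ j, j ∉ insert t X → y j = 0) →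
          (∀ p i, f p = some i → ∑ j, a i j * y j = 0) → y t = 0 := by
      intro l
      by_cases hl : l ∈ Λ
      · obtain ⟨S, s1, s2, s3⟩ := det_small hX ht {i | ∑ j, a i j * x l j = β i} (fun y hy h0 => by
          have := hx.vertex hl y hy fun i hi => h0 i hi
          rw [this]; rfl)
        refine ⟨fun p => S.toList[(p : ℕ)]?, fun _ => ⟨fun p i hpi => ?_, fun y hy hp => ?_⟩⟩
        · have h1 : i ∈ S.toList := List.mem_of_getElem? hpi
          exact s1 (Finset.mem_toList.1 h1)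
        · refine s3 y hy fun i hi => ?_
          obtain ⟨p, hp1, hp2⟩ := List.getElem_of_mem (Finset.mem_toList.2 hi)
          rw [Finset.length_toList] at hp1
          refine hp ⟨p, by omega⟩ i ?_
          simp only
          rw [List.getElem?_eq_getElem (by rw [Finset.length_toList]; exact hp1), hp2]
      · exact ⟨fun _ => none, fun h => absurd h hl⟩
    choose F hF using hdet
    have hfib : ∀ f ∈ (univ : Finset (Fin (2 ^ k) → Option ι)),
        (Λ.filter fun l => F l = f).card ≤ 1 + X.card * W ^ k := by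
      intro f _
      rcases (Λ.filter fun l => F l = f).eq_empty_or_nonempty with h0 | ⟨l0, hl0⟩
      · rw [h0]; simp
      obtain ⟨hl0Λ, hl0f⟩ := mem_filter.1 hl0
      refine ih W hW' _ x (x l0) (fun l hl => ?_) (hinj.mono fun l hl => (mem_filter.1 hl).1)
      obtain ⟨hlΛ, hlf⟩ := mem_filter.1 hl
      obtain ⟨x1, x2, x3⟩ := hx l hlΛ
      have hoff : ∀ j, j ∉ insert t X → x l j = x l0 j := fun j hj => by
        rw [x2 j hj, (hx l0 hl0Λ).2.1 j hj]
      have hxt : x l t = x l0 t := by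
        have := (hF l0 hl0Λ).2 (fun j => x l j - x l0 j) (fun j hj => by
          rw [hoff j hj, sub_self]) (fun p i hp => by
          have h1 := (hF l0 hl0Λ).1 p i hp
          have h2 := (hF l hlΛ).1 p i (by rw [hlf, ← hl0f]; exact hp)
          simp only [mul_sub, Finset.sum_sub_distrib]
          rw [h1, h2, sub_self])
        beta_reduce at this
        linarith
      have hoffX : ∀ j, j ∉ X → x l j = x l0 j := fun j hj => by
        by_cases hjt : j = t
        · rw [hjt]; exact hxt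
        · exact hoff j (by rw [mem_insert]; tauto)
      refine ⟨x1, hoffX, fun y hy hyX hne => x3 y hy (fun j hj => ?_) hne⟩
      rw [hyX j (fun h => hj (mem_insert_of_mem h)), (hx l0 hl0Λ).2.1 j hj]
    have h1 : Λ.card = ∑ f : Fin (2 ^ k) → Option ι, (Λ.filter fun l => F l = f).card :=
      Finset.card_eq_sum_card_fiberwise fun l _ => mem_univ _
    have h2 : Λ.card ≤ (Fintype.card ι + 1) ^ (2 ^ k) * (1 + X.card * W ^ k) := by
      rw [h1]
      refine (Finset.sum_le_card_nsmul _ _ _ hfib).trans ?_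
      rw [smul_eq_mul, Finset.card_univ, Fintype.card_fun, Fintype.card_option, Fintype.card_fin]
    rw [Finset.card_insert_of_notMem ht]
    calc Λ.card ≤ W * (1 + X.card * W ^ k) := h2.trans (Nat.mul_le_mul_right _ hW')
      _ = W + X.card * W ^ (k + 1) := by rw [pow_succ]; ring
      _ ≤ W ^ (k + 1) + X.card * W ^ (k + 1) := by
          have : W ≤ W ^ (k + 1) := Nat.le_self_pow (by omega) W
          omega
      _ ≤ 1 + (X.card + 1) * W ^ (k + 1) := by rw [add_mul, one_mul]; omega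

end Pool.Agent.X97.SV
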