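import Pool.Agent.X97.SV.Int
set_option autoImplicit false

/-!
# Two extreme rays do not have the same values, and three extreme rays do not lie on a line
-/

namespace Pool.Agent.X97.SV

open Pool.Agent.Y644.QS Pool.Agent.H687R2.LLL Pool.Agent.NPC

variable {N : ℕ} {c s0 : List ℤ} {J : List (List ℤ)}

theorem St0.ext_tau (h : St0 N c J s0) {x e : EuclideanSpace ℝ (Fin N)}
    (he : Ext (rf N) [] J e) (hτ : 0 < rf N (tN N) x)
    (h2 : gn (rf N (tN N)) (rf N (dd N c J s0)) x e = 0) : 0 < rf N (tN N) e := by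
  refine lt_of_le_of_ne (h.tau_nonneg he.mem) fun h0 => ?_
  unfold gn at h2
  rw [← h0, mul_zero, sub_zero] at h2
  have h3 := (mul_eq_zero.1 h2).resolve_left hτ.ne'
  obtain ⟨s, hs⟩ := h.dd_zero he.mem h3
  rw [hs, map_smul, smul_eq_mul] at h0
  have h4 := (mul_eq_zero.1 h0.symm).resolve_right h.taus.ne'
  exact he.ne (by rw [hs, h4, zero_smul])

/-- Two extreme rays do not have the same values. -/
theorem St0.two (h : St0 N c J s0) {x e : EuclideanSpace ℝ (Fin N)} (hx : Ext (rf N) [] J x)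
    (he : Ext (rf N) [] J e) (hτ : 0 < rf N (tN N) x)
    (h2 : gn (rf N (tN N)) (rf N (dd N c J s0)) x e = 0) : ∃ s : ℝ, e = s • x := by
  have hτe := h.ext_tau he hτ h2
  obtain ⟨X, X1, X2, sx, X3, X4⟩ := intRep h.pos h.lenc h.lenJ hx (Or.inl hτ)
  obtain ⟨E, E1, E2, se, E3, E4⟩ := intRep h.pos h.lenc h.lenJ he (Or.inl hτe)
  set b := bpar c [] J with hb
  have hz : (rf N (tN N) (lv N X)) • lv N E - (rf N (tN N) (lv N E)) • lv N X = 0 := by
    refine h.zero (lin_int (κ := 5 * b + 3) (fun r hr => ?_) ?_) ?_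
    · have hrJ : r ∈ J := ((mem_tight h.lenJ h.lens).1 hr).1
      obtain ⟨a1, a2⟩ := h.rep X1 X2 (r := r) (Or.inr (Or.inr hrJ))
      obtain ⟨b1, b2⟩ := h.rep E1 E2 (r := r) (Or.inr (Or.inr hrJ))
      obtain ⟨c1, -⟩ := h.rep X1 X2 (r := tN N) (Or.inl rfl)
      obtain ⟨d1, -⟩ := h.rep E1 E2 (r := tN N) (Or.inl rfl)
      have c2 := h.rep_tau X1 X2
      have d2 := h.rep_tau E1 E2
      refine ⟨dot (tN N) X * dot r E - dot (tN N) E * dot r X, ?_, ?_⟩
      · rw [map_sub, map_smul, map_smul, smul_eq_mul, smul_eq_mul, a1, b1, c1, d1]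
        push_cast
        ring
      · push_cast
        refine (abs_det_le c2 b2 d2 a2).trans_lt ?_
        rw [← pow_add, ← pow_succ']
        exact pow_lt_pow_right₀ (by norm_num) (by omega)
    · change rf N (dd N c J s0) _ = 0
      rw [map_sub, map_smul, map_smul, smul_eq_mul, smul_eq_mul, X4, E4]
      simp only [map_smul, smul_eq_mul]
      unfold gn at h2
      linear_combination (sx * se) * h2
    · rw [map_sub, map_smul, map_smul, smul_eq_mul, smul_eq_mul]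
      ring
  rw [X4, E4] at hz
  simp only [map_smul, smul_eq_mul, smul_smul] at hz
  have h5 : (sx * rf N (tN N) x * se) • e = (se * rf N (tN N) e * sx) • x := sub_eq_zero.1 hz
  have h6 : sx * rf N (tN N) x * se ≠ 0 := (mul_pos (mul_pos X3 hτ) E3).ne'
  refine ⟨(sx * rf N (tN N) x * se)⁻¹ * (se * rf N (tN N) e * sx), ?_⟩
  rw [← smul_smul, ← h5, smul_smul, inv_mul_cancel₀ h6, one_smul]

theorem gn_smul_smul {V : Type*} [AddCommGroup V] [Module ℝ V] (τ f : V →ₗ[ℝ] ℝ) (x y : V)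
    (s t : ℝ) : gn τ f (s • x) (t • y) = s * t * gn τ f x y := by
  simp only [gn, map_smul, smul_eq_mul]; ring

/-- Three extreme rays do not lie on a line. -/
theorem St0.three (h : St0 N c J s0) {x w u : EuclideanSpace ℝ (Fin N)} {μ : ℝ}
    (hx : Ext (rf N) [] J x) (hw : Ext (rf N) [] J w) (hu : Ext (rf N) [] J u)
    (hτx : 0 < rf N (tN N) x) (hτw : 0 < rf N (tN N) w)
    (hτu : 0 < rf N (tN N) u ∨ 0 < rf N c u)
    (h1 : gn (rf N (tN N)) (rf N (dd N c J s0)) w x + μ * gn (rf N (tN N)) (rf N c) w x = 0)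
    (h2 : gn (rf N (tN N)) (rf N (dd N c J s0)) w u + μ * gn (rf N (tN N)) (rf N c) w u = 0)
    (u1 : Up (rf N (tN N)) (rf N c) x w) (u2 : Up (rf N (tN N)) (rf N c) w u) : False := by
  obtain ⟨X, X1, X2, sx, X3, X4⟩ := intRep h.pos h.lenc h.lenJ hx (Or.inl hτx)
  obtain ⟨W, W1, W2, sw, W3, W4⟩ := intRep h.pos h.lenc h.lenJ hw (Or.inl hτw)
  obtain ⟨U, U1, U2, su, U3, U4⟩ := intRep h.pos h.lenc h.lenJ hu hτu
  set b := bpar c [] J with hb
  have hX : Ext (rf N) [] J (lv N X) := by rw [X4]; exact hx.smul X3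
  have hW : Ext (rf N) [] J (lv N W) := by rw [W4]; exact hw.smul W3
  have hU : Ext (rf N) [] J (lv N U) := by rw [U4]; exact hu.smul U3
  refine zz_ne (τ := rf N (tN N)) (c := rf N c) hW hX.mem hU.mem (by
    rw [X4, W4]; exact (u1.smul_left X3).smul_right W3) (by
    rw [W4, U4]; exact (u2.smul_left W3).smul_right U3) ?_
  refine h.zero (lin_int (κ := 5 * b + 3) (fun r hr => ?_) ?_) zz_tau
  · have hrJ : r ∈ J := ((mem_tight h.lenJ h.lens).1 hr).1
    obtain ⟨a1, a2⟩ := h.rep X1 X2 (r := r) (Or.inr (Or.inr hrJ))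
    obtain ⟨b1, b2⟩ := h.rep W1 W2 (r := r) (Or.inr (Or.inr hrJ))
    obtain ⟨c1, c2⟩ := h.rep U1 U2 (r := r) (Or.inr (Or.inr hrJ))
    obtain ⟨d1, -⟩ := h.rep X1 X2 (r := tN N) (Or.inl rfl)
    obtain ⟨e1, -⟩ := h.rep W1 W2 (r := tN N) (Or.inl rfl)
    obtain ⟨f1, -⟩ := h.rep U1 U2 (r := tN N) (Or.inl rfl)
    obtain ⟨g1, g2⟩ := h.rep X1 X2 (r := c) (Or.inr (Or.inl rfl))
    obtain ⟨i1, i2⟩ := h.rep W1 W2 (r := c) (Or.inr (Or.inl rfl))
    obtain ⟨j1, j2⟩ := h.rep U1 U2 (r := c) (Or.inr (Or.inl rfl))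
    have d2 := h.rep_tau X1 X2
    have e2 := h.rep_tau W1 W2
    have f2 := h.rep_tau U1 U2
    refine ⟨(dot (tN N) W * dot c U - dot (tN N) U * dot c W) * dot r X -
      (dot (tN N) X * dot c U - dot (tN N) U * dot c X) * dot r W +
      (dot (tN N) X * dot c W - dot (tN N) W * dot c X) * dot r U, ?_, ?_⟩
    · unfold zz
      simp only [map_add, map_sub, map_smul, smul_eq_mul]
      rw [a1, b1, c1, d1, e1, f1, g1, i1, j1]
      push_cast
      ring
    · push_cast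
      have k1 := abs_det_le e2 j2 f2 i2
      have k2 := abs_det_le d2 j2 f2 g2
      have k3 := abs_det_le d2 i2 e2 g2
      have hE : (0 : ℝ) ≤ 2 * (2 ^ b * 2 ^ (2 * b)) := by positivity
      have l1 := mul_le_mul k1 a2 (abs_nonneg _) hE
      have l2 := mul_le_mul k2 b2 (abs_nonneg _) hE
      have l3 := mul_le_mul k3 c2 (abs_nonneg _) hE
      rw [← abs_mul] at l1 l2 l3
      have l4 := abs_add_le (((dot (tN N) W : ℤ) * (dot c U : ℤ) - (dot (tN N) U : ℤ) *
        (dot c W : ℤ)) * (dot r X : ℤ) - ((dot (tN N) X : ℤ) * (dot c U : ℤ) -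
        (dot (tN N) U : ℤ) * (dot c X : ℤ)) * (dot r W : ℤ) : ℝ)
        (((dot (tN N) X : ℤ) * (dot c W : ℤ) - (dot (tN N) W : ℤ) * (dot c X : ℤ)) *
        (dot r U : ℤ) : ℝ)
      have l5 := abs_sub (((dot (tN N) W : ℤ) * (dot c U : ℤ) - (dot (tN N) U : ℤ) *
        (dot c W : ℤ)) * (dot r X : ℤ) : ℝ) (((dot (tN N) X : ℤ) * (dot c U : ℤ) -
        (dot (tN N) U : ℤ) * (dot c X : ℤ)) * (dot r W : ℤ) : ℝ)
      have hpw : (2 : ℝ) * (2 ^ b * 2 ^ (2 * b)) * 2 ^ (2 * b) = 2 ^ (5 * b + 1) := by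
        rw [← pow_add, ← pow_succ', ← pow_add]
        congr 1
        omega
      rw [hpw] at l1 l2 l3
      have hlt : (3 : ℝ) * 2 ^ (5 * b + 1) < 2 ^ (5 * b + 3) := by
        have : (0 : ℝ) < 2 ^ (5 * b + 1) := by positivity
        rw [show 5 * b + 3 = (5 * b + 1) + 2 by omega, pow_add _ (5 * b + 1) 2]
        linarith
      linarith
  · change rf N (dd N c J s0) _ = 0
    refine zz_d (μ := μ) (by rw [W4, map_smul, smul_eq_mul]; exact mul_pos W3 hτw) ?_ ?_
    · rw [W4, X4, gn_smul_smul, gn_smul_smul]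
      linear_combination (sw * sx) * h1
    · rw [W4, U4, gn_smul_smul, gn_smul_smul]
      linear_combination (sw * su) * h2

end Pool.Agent.X97.SV
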