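import Pool.Agent.X97.SV.Count
import Pool.Agent.Y644.QW.Opt
set_option autoImplicit false

/-!
# The pencil `d + μ c` on the extreme rays of a cone
-/

namespace Pool.Agent.X97.SV

open Pool.Agent.Y644.QS Pool.Agent.H687R2.LLL Pool.Agent.NPC

section Abs

variable {ρ V : Type*} [AddCommGroup V] [Module ℝ V] {φ : ρ → V →ₗ[ℝ] ℝ} {J : List ρ}

/-- The gain of `f / τ` from `x` to `y`. -/
def gn (τ f : V →ₗ[ℝ] ℝ) (x y : V) : ℝ := τ x * f y - f x * τ y

/-- The gain as a functional of the second point. -/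
def gL (τ f : V →ₗ[ℝ] ℝ) (x : V) : V →ₗ[ℝ] ℝ := τ x • f - f x • τ

theorem gL_apply (τ f : V →ₗ[ℝ] ℝ) (x y : V) : gL τ f x y = gn τ f x y := by
  simp [gL, gn]

theorem gn_add_smul (τ f : V →ₗ[ℝ] ℝ) (x y z : V) (s : ℝ) :
    gn τ f x (y + s • z) = gn τ f x y + s * gn τ f x z := by
  simp only [gn, map_add, map_smul, smul_eq_mul]; ring

/-- `x` maximises `d + μ c`. -/
def TopM (φ : ρ → V →ₗ[ℝ] ℝ) (J : List ρ) (τ c d : V →ₗ[ℝ] ℝ) (μ : ℝ) (x : V) : Prop :=
  ∀ y, InC φ [] J y → gn τ d x y + μ * gn τ c x y ≤ 0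

variable {τ c d : V →ₗ[ℝ] ℝ} {x y w u : V} {μ p q l : ℝ}

theorem up_iff : Up τ c x y ↔ 0 < gn τ c x y := by
  unfold Up gn
  constructor <;> intro h <;> linarith [mul_comm (τ x) (c y)]

theorem exists_eps {e h : V} : ∀ {J : List ρ}, (∀ r ∈ J, φ r e ≤ 0) →
    (∀ r ∈ J, φ r e = 0 → φ r h = 0) → ∃ ε : ℝ, 0 < ε ∧ ∀ r ∈ J, φ r e + ε * |φ r h| ≤ 0
  | [], _, _ => ⟨1, one_pos, by simp⟩
  | r :: J, h1, h2 => by
    obtain ⟨ε, hε, hJ⟩ := exists_eps (J := J) (fun q hq => h1 q (by simp [hq]))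
      fun q hq => h2 q (by simp [hq])
    by_cases h0 : φ r e = 0
    · refine ⟨ε, hε, fun q hq => ?_⟩
      rcases List.mem_cons.1 hq with rfl | hq
      · rw [h0, h2 _ (by simp) h0]; simp
      · exact hJ q hq
    · have hneg : 0 < -φ r e := by
        have := lt_of_le_of_ne (h1 r (by simp)) h0
        linarith
      refine ⟨min ε (-φ r e / (|φ r h| + 1)), lt_min hε (by positivity), fun q hq => ?_⟩
      rcases List.mem_cons.1 hq with rfl | hq
      · have h3 : min ε (-φ q e / (|φ q h| + 1)) * |φ q h| ≤ -φ q e := by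
          refine (mul_le_mul_of_nonneg_right (min_le_right _ _) (abs_nonneg _)).trans ?_
          rw [div_mul_eq_mul_div, div_le_iff₀ (by positivity)]
          nlinarith [abs_nonneg (φ q h)]
        linarith
      · have h3 := mul_le_mul_of_nonneg_right (min_le_left ε (-φ r e / (|φ r h| + 1)))
          (abs_nonneg (φ q h))
        have := hJ q hq
        linarith

theorem inC_pm {e h : V} (he : InC φ [] J e) (h2 : ∀ r ∈ J, φ r e = 0 → φ r h = 0) :
    ∃ ε : ℝ, 0 < ε ∧ InC φ [] J (e + ε • h) ∧ InC φ [] J (e + (-ε) • h) := by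
  obtain ⟨ε, hε, hJ⟩ := exists_eps he.2 h2
  refine ⟨ε, hε, ⟨by simp, fun r hr => ?_⟩, ⟨by simp, fun r hr => ?_⟩⟩
  · rw [map_add, map_smul, smul_eq_mul]
    have := hJ r hr
    have := mul_le_mul_of_nonneg_left (le_abs_self (φ r h)) hε.le
    linarith
  · rw [map_add, map_smul, smul_eq_mul]
    have := hJ r hr
    have := mul_le_mul_of_nonneg_left (neg_abs_le (φ r h)) hε.le
    nlinarith

theorem pencil_eq (hp : TopM φ J τ c d p x) (hq : TopM φ J τ c d q x) (h1 : p < l) (h2 : l < q)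
    (hy : InC φ [] J y) (h : 0 ≤ gn τ d x y + l * gn τ c x y) :
    gn τ c x y = 0 ∧ gn τ d x y = 0 := by
  have a1 := hp y hy
  have a2 := hq y hy
  have b1 : 0 ≤ (l - p) * gn τ c x y := by linarith
  have b2 : (q - l) * gn τ c x y ≤ 0 := by linarith
  have c1 : 0 ≤ gn τ c x y := nonneg_of_mul_nonneg_right b1 (by linarith)
  have c2 : gn τ c x y ≤ 0 := nonpos_of_mul_nonpos_right b2 (by linarith)
  have c3 : gn τ c x y = 0 := le_antisymm c2 c1
  rw [c3, mul_zero, add_zero] at a1 h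
  exact ⟨c3, le_antisymm a1 h⟩

/-- If no other extreme ray has the same values of `c` and `d` then no other point has. -/
theorem unique_of_ext (hx : Ext φ [] J x) (hτ : 0 < τ x) {r0 : ρ} (hr0 : r0 ∈ J)
    (hτJ : φ r0 = -τ) (hpq : p < q) (hp : TopM φ J τ c d p x) (hq : TopM φ J τ c d q x)
    (hU : ∀ e, Ext φ [] J e → gn τ c x e = 0 → gn τ d x e = 0 → ∃ s : ℝ, e = s • x)
    (hy : InC φ [] J y) (h1 : gn τ c x y = 0) (h2 : gn τ d x y = 0) : ∃ s : ℝ, y = s • x := by
  by_contra hcon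
  have hns : y ∉ Submodule.span ℝ {x} := by
    rw [Submodule.mem_span_singleton]
    rintro ⟨s, hs⟩
    exact hcon ⟨s, hs.symm⟩
  obtain ⟨f, hf1, hf2⟩ := Submodule.exists_le_ker_of_notMem hns
  have hfx : f x = 0 := hf2 (Submodule.mem_span_singleton_self x)
  obtain ⟨g, hgx, hgy⟩ : ∃ g : V →ₗ[ℝ] ℝ, g x = 0 ∧ 0 < g y := by
    rcases lt_or_gt_of_ne hf1 with h | h
    · exact ⟨-f, by simp [hfx], by simpa using h⟩
    · exact ⟨f, hfx, h⟩
  obtain ⟨e, he, hge⟩ := exists_ext (φ := fun r : V →ₗ[ℝ] ℝ => r)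
    (E := [gL τ c x, gL τ d x]) (J := J.map φ) (g := g) (z := y) (fun h a1 a2 => by
      obtain ⟨s, hs⟩ := hx.ker h (by simp) fun r hr _ => a2 _ (List.mem_map.2 ⟨r, hr, rfl⟩)
      have h3 := a2 _ (List.mem_map.2 ⟨r0, hr0, rfl⟩)
      rw [hτJ, LinearMap.neg_apply, hs, map_smul, smul_eq_mul, neg_eq_zero] at h3
      rw [hs, (mul_eq_zero.1 h3).resolve_right hτ.ne', zero_smul]) (by
      refine ⟨fun r hr => ?_, fun r hr => ?_⟩
      · simp only [List.mem_cons, List.not_mem_nil, or_false] at hr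
        rcases hr with rfl | rfl
        · rw [gL_apply, h1]
        · rw [gL_apply, h2]
      · obtain ⟨r', hr', rfl⟩ := List.mem_map.1 hr
        exact hy.2 r' hr') hgy
  have heC : InC φ [] J e := ⟨by simp, fun r hr => he.mem.2 _ (List.mem_map.2 ⟨r, hr, rfl⟩)⟩
  have e1 : gn τ c x e = 0 := by rw [← gL_apply]; exact he.mem.1 _ (by simp)
  have e2 : gn τ d x e = 0 := by rw [← gL_apply]; exact he.mem.1 _ (by simp)
  have hext : Ext φ [] J e := by
    refine ⟨heC, he.ne, fun h _ h0 => ?_⟩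
    obtain ⟨ε, hε, i1, i2⟩ := inC_pm heC h0
    have key : ∀ μ : ℝ, TopM φ J τ c d μ x → gn τ d x h + μ * gn τ c x h = 0 := by
      intro μ hμ
      have j1 := hμ _ i1
      have j2 := hμ _ i2
      rw [gn_add_smul, gn_add_smul, e1, e2] at j1 j2
      have k1 : ε * (gn τ d x h + μ * gn τ c x h) ≤ 0 := by linarith
      have k2 : 0 ≤ ε * (gn τ d x h + μ * gn τ c x h) := by linarith
      have k3 := le_antisymm k1 k2
      exact (mul_eq_zero.1 k3).resolve_left hε.ne'
    have kp := key p hp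
    have kq := key q hq
    have k4 : (q - p) * gn τ c x h = 0 := by linarith
    have k5 : gn τ c x h = 0 := (mul_eq_zero.1 k4).resolve_left (by linarith)
    have k6 : gn τ d x h = 0 := by rw [k5, mul_zero, add_zero] at kp; exact kp
    refine he.ker h (fun r hr => ?_) fun r hr hre => ?_
    · simp only [List.mem_cons, List.not_mem_nil, or_false] at hr
      rcases hr with rfl | rfl
      · rw [gL_apply, k5]
      · rw [gL_apply, k6]
    · obtain ⟨r', hr', rfl⟩ := List.mem_map.1 hr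
      exact h0 r' hr' hre
  obtain ⟨s, hs⟩ := hU e hext e1 e2
  rw [hs, map_smul, hgx, smul_zero] at hge
  exact lt_irrefl _ hge

/-- The point on the plane of three points. -/
def zz (τ c : V →ₗ[ℝ] ℝ) (x w u : V) : V :=
  (τ w * c u - τ u * c w) • x - (τ x * c u - τ u * c x) • w + (τ x * c w - τ w * c x) • u

theorem zz_tau : τ (zz τ c x w u) = 0 := by
  simp only [zz, map_add, map_sub, map_smul, smul_eq_mul]; ring

theorem zz_c : c (zz τ c x w u) = 0 := by
  simp only [zz, map_add, map_sub, map_smul, smul_eq_mul]; ring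

theorem zz_d (hτ : 0 < τ w) (h1 : gn τ d w x + μ * gn τ c w x = 0)
    (h2 : gn τ d w u + μ * gn τ c w u = 0) : d (zz τ c x w u) = 0 := by
  have h3 : τ w * d (zz τ c x w u) = 0 := by
    unfold gn at h1 h2
    simp only [zz, map_add, map_sub, map_smul, smul_eq_mul]
    linear_combination (τ w * c u - τ u * c w) * h1 + (τ x * c w - τ w * c x) * h2
  exact (mul_eq_zero.1 h3).resolve_left hτ.ne'

/-- An extreme ray does not lie between two others. -/
theorem zz_ne (hw : Ext φ [] J w) (hx : InC φ [] J x) (hu : InC φ [] J u) (h1 : Up τ c x w) (h2 : Up τ c w u) :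
    zz τ c x w u ≠ 0 := by
  intro h0
  unfold Up at h1 h2
  have hA : 0 < τ w * c u - τ u * c w := by linarith [mul_comm (τ w) (c u), mul_comm (τ u) (c w)]
  have hC : 0 < τ x * c w - τ w * c x := by linarith [mul_comm (τ x) (c w), mul_comm (τ w) (c x)]
  have hker : ∀ r ∈ J, φ r w = 0 → φ r x = 0 := by
    intro r hr hrw
    have h3 : φ r (zz τ c x w u) = 0 := by rw [h0, map_zero]
    simp only [zz, map_add, map_sub, map_smul, smul_eq_mul, hrw, mul_zero, sub_zero] at h3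
    have h4 := hx.2 r hr
    have h5 := hu.2 r hr
    have h6 : (τ w * c u - τ u * c w) * φ r x ≤ 0 := mul_nonpos_of_nonneg_of_nonpos hA.le h4
    have h7 : (τ x * c w - τ w * c x) * φ r u ≤ 0 := mul_nonpos_of_nonneg_of_nonpos hC.le h5
    have h8 : (τ w * c u - τ u * c w) * φ r x = 0 := by linarith
    exact (mul_eq_zero.1 h8).resolve_left hA.ne'
  obtain ⟨s, hs⟩ := hw.ker x (by simp) hker
  rw [hs, map_smul, map_smul, smul_eq_mul, smul_eq_mul] at h1
  nlinarith

end Abs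

end Pool.Agent.X97.SV
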