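import Pool.Agent.X97.SV.Geo
set_option autoImplicit false

/-!
# Integral representatives, and the generic auxiliary objective function
-/

namespace Pool.Agent.X97.SV

open Pool.Agent.Y644.QS Pool.Agent.H687R2.LLL Pool.Agent.NPC

/-- The last unit vector. -/
def tN (N : ℕ) : List ℤ := unitV N (N - 1)

theorem tau_eq {c : List ℤ} {N : ℕ} (h : c.length = N) : tau c = tN N := by
  rw [tau, h]; rfl

theorem length_tN (N : ℕ) : (tN N).length = N := length_unitV _ _

theorem norm_tN {N : ℕ} (hN : 0 < N) : ‖lv N (tN N)‖ = 1 :=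
  norm_unitV (K := N) ⟨N - 1, by omega⟩

theorem abs_rf_le (N : ℕ) (r : List ℤ) (y : EuclideanSpace ℝ (Fin N)) :
    |rf N r y| ≤ ‖lv N r‖ * ‖y‖ := by
  rw [rf_apply]
  exact abs_real_inner_le_norm _ _

theorem norm_le_bpar {c : List ℤ} {J : List (List ℤ)} {N : ℕ} {r : List ℤ}
    (hr : r = c ∨ r ∈ J) : ‖lv N r‖ ≤ 2 ^ bpar c [] J := by
  refine norm_lv_lt.trans (pow_le_pow_right₀ (by norm_num) ?_)
  have h1 : sz r ≤ sz (c, ([] : List (List ℤ)), J) := by
    rw [sz_pair, sz_pair]
    rcases hr with rfl | hr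
    · omega
    · have := sz_le_of_mem hr
      omega
  refine h1.trans ?_
  unfold bpar
  nlinarith [sz_pos (c, ([] : List (List ℤ)), J)]

/-- Extreme rays have integral representatives of bounded norm. -/
theorem intRep {N : ℕ} (hN : 0 < N) {c : List ℤ} (hc : c.length = N) {J : List (List ℤ)}
    (hJ : Len N J) {w : EuclideanSpace ℝ (Fin N)} (hw : Ext (rf N) [] J w)
    (hor : 0 < rf N (tN N) w ∨ 0 < rf N c w) :
    ∃ X : List ℤ, X.length = N ∧ ‖lv N X‖ ≤ 2 ^ bpar c [] J ∧ ∃ s : ℝ, 0 < s ∧ lv N X = s • w := by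
  classical
  set b := 2 * sz (c, ([] : List (List ℤ)), J) with hb
  have key : ∀ t : List ℤ, t.length = N → 0 < rf N t w → ‖lv N t‖ ≤ 2 ^ b →
      ∃ X : List ℤ, X.length = N ∧ ‖lv N X‖ ≤ 2 ^ bpar c [] J ∧
        ∃ s : ℝ, 0 < s ∧ lv N X = s • w := by
    intro t ht hpos hnorm
    set T := J.filter fun r => decide (rf N r w = 0) with hTdef
    have hT : ∀ r, r ∈ T ↔ r ∈ J ∧ rf N r w = 0 := fun r => by
      rw [hTdef, List.mem_filter, decide_eq_true_iff]
    have hE : Len N ([] : List (List ℤ)) := fun r hr => by simp at hr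
    obtain ⟨D, hD, h1, h2, h3, h4⟩ := proj_ext hE hJ ht hT hw hpos
    refine ⟨_, h2, ?_, h4⟩
    rw [h3, norm_smul, Real.norm_eq_abs, Nat.abs_cast]
    have hD2 : (D : ℝ) ≤ 2 ^ (b * J.length) := by
      refine h1.trans ((gprod_le (b := b) fun r hr => ?_).trans ?_)
      · refine normSq_lv_le ?_
        rw [sz_pair, sz_pair]
        rw [List.nil_append] at hr
        have := sz_le_of_mem ((hT r).1 hr).1
        omega
      · refine pow_le_pow_right₀ (by norm_num) (Nat.mul_le_mul_left _ ?_)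
        rw [List.nil_append]
        exact List.length_filter_le _ _
    have h5 := PB_norm_le (B := [] ++ T) (lv N t)
    have hbb : bpar c [] J = b * J.length + b := by
      unfold bpar
      rw [List.length_nil]
      ring
    calc (D : ℝ) * ‖PB N ([] ++ T) (lv N t)‖ ≤ 2 ^ (b * J.length) * 2 ^ b :=
          mul_le_mul hD2 (h5.trans hnorm) (norm_nonneg _) (by positivity)
      _ = 2 ^ bpar c [] J := by rw [hbb, pow_add]
  rcases hor with h | h
  · refine key _ (length_tN N) h ?_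
    rw [norm_tN hN]
    exact one_le_pow₀ (by norm_num)
  · refine key c hc h (norm_lv_lt.trans (pow_le_pow_right₀ (by norm_num) ?_))
    rw [hb, sz_pair]; omega

/-! ### The auxiliary objective function -/

/-- The combination of the rows of `T` with the coefficients `2 ^ (κ i)`. -/
def dvec (N κ : ℕ) (T : List (List ℤ)) : List ℤ := (List.range N).map fun j =>
  ((List.range T.length).map fun i => 2 ^ (κ * min i T.length) * (T.getD i []).getD j 0).sum

theorem length_dvec (N κ : ℕ) (T : List (List ℤ)) : (dvec N κ T).length = N := by simp [dvec]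

theorem sum_range_list (L : ℕ) (f : ℕ → ℤ) :
    ((List.range L).map f).sum = ∑ i ∈ Finset.range L, f i := by
  induction L with
  | zero => simp
  | succ L ih => rw [List.range_succ, List.map_append, List.sum_append, ih, Finset.sum_range_succ]; simp

theorem rf_sum (N : ℕ) (r : List ℤ) (h : EuclideanSpace ℝ (Fin N)) :
    rf N r h = ∑ j : Fin N, (r.getD j 0 : ℝ) * h j := by
  rw [rf_apply, PiLp.inner_apply]
  refine Finset.sum_congr rfl fun j _ => ?_
  rw [lv_apply]
  simp [mul_comm]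

theorem rf_dvec (N κ : ℕ) (T : List (List ℤ)) (h : EuclideanSpace ℝ (Fin N)) :
    rf N (dvec N κ T) h = ∑ i ∈ Finset.range T.length, ((2 : ℝ) ^ κ) ^ i * rf N (T.getD i []) h := by
  have h1 : ∀ j : Fin N, ((dvec N κ T).getD j 0 : ℝ) =
      ∑ i ∈ Finset.range T.length, ((2 : ℝ) ^ κ) ^ i * ((T.getD i []).getD j 0 : ℤ) := by
    intro j
    unfold dvec
    rw [List.getD_eq_getElem _ _ (by simp), List.getElem_map, List.getElem_range, sum_range_list]
    push_cast
    refine Finset.sum_congr rfl fun i hi => ?_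
    rw [Finset.mem_range] at hi
    rw [min_eq_left hi.le, pow_mul]
  rw [rf_sum]
  simp only [h1, rf_sum, Finset.sum_mul, Finset.mul_sum]
  rw [Finset.sum_comm]
  refine Finset.sum_congr rfl fun i _ => Finset.sum_congr rfl fun j _ => by ring

theorem baseK {K : ℤ} (hK : 0 < K) : ∀ (L : ℕ) (t : ℕ → ℤ), (∀ i < L, |t i| < K) →
    ∑ i ∈ Finset.range L, K ^ i * t i = 0 → ∀ i < L, t i = 0 := by
  intro L
  induction L with
  | zero => intro t _ _ i hi; omega
  | succ L ih =>
    intro t ht h0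
    rw [Finset.sum_range_succ'] at h0
    have e : ∑ i ∈ Finset.range L, K ^ (i + 1) * t (i + 1) =
        K * ∑ i ∈ Finset.range L, K ^ i * t (i + 1) := by
      rw [Finset.mul_sum]
      exact Finset.sum_congr rfl fun i _ => by ring
    rw [e, pow_zero, one_mul] at h0
    have h1 : t 0 = 0 := by
      have h2 : K ∣ t 0 := ⟨-∑ i ∈ Finset.range L, K ^ i * t (i + 1), by linarith⟩
      exact Int.eq_zero_of_abs_lt_dvd h2 (ht 0 (by omega))
    have h3 : ∑ i ∈ Finset.range L, K ^ i * t (i + 1) = 0 := by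
      rw [h1, add_zero] at h0
      exact (mul_eq_zero.1 h0).resolve_left hK.ne'
    have h4 := ih (fun i => t (i + 1)) (fun i hi => ht (i + 1) (by omega)) h3
    intro i hi
    cases i with
    | zero => exact h1
    | succ i => exact h4 i (by omega)

/-- If the auxiliary functional vanishes at a point at which the rows have small integral values,
then the rows vanish. -/
theorem lin_int {N κ : ℕ} {T : List (List ℤ)} {z : EuclideanSpace ℝ (Fin N)}
    (hz : ∀ r ∈ T, ∃ t : ℤ, rf N r z = t ∧ |(t : ℝ)| < 2 ^ κ) (h0 : rf N (dvec N κ T) z = 0) :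
    ∀ r ∈ T, rf N r z = 0 := by
  have hz' : ∀ i, ∃ t : ℤ, i < T.length → rf N (T.getD i []) z = t ∧ |(t : ℝ)| < 2 ^ κ := by
    intro i
    by_cases hi : i < T.length
    · obtain ⟨t, ht⟩ := hz (T.getD i []) (by
        rw [List.getD_eq_getElem _ _ hi]; exact List.getElem_mem hi)
      exact ⟨t, fun _ => ht⟩
    · exact ⟨0, fun h => absurd h hi⟩
  choose t ht using hz'
  rw [rf_dvec] at h0
  have h1 : ∑ i ∈ Finset.range T.length, ((2 : ℤ) ^ κ) ^ i * t i = 0 := by
    have h2 : ((∑ i ∈ Finset.range T.length, ((2 : ℤ) ^ κ) ^ i * t i : ℤ) : ℝ) = 0 := by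
      rw [← h0]
      push_cast
      refine Finset.sum_congr rfl fun i hi => ?_
      rw [(ht i (Finset.mem_range.1 hi)).1]
    exact_mod_cast h2
  have h3 := baseK (K := 2 ^ κ) (by positivity) T.length t (fun i hi => by
    have := (ht i hi).2
    exact_mod_cast this) h1
  intro r hr
  obtain ⟨i, hi, rfl⟩ := List.getElem_of_mem hr
  have h4 := (ht i hi).1
  rw [List.getD_eq_getElem _ _ hi] at h4
  rw [h4, h3 i hi, Int.cast_zero]

/-! ### Genericity -/

section Gen

variable {N : ℕ} {c s0 : List ℤ} {J : List (List ℤ)}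

/-- The data of the start vertex. -/
structure St0 (N : ℕ) (c : List ℤ) (J : List (List ℤ)) (s0 : List ℤ) : Prop where
  pos : 0 < N
  lenc : c.length = N
  lenJ : Len N J
  tauJ : negV (tN N) ∈ J
  lens : s0.length = N
  ext : Ext (rf N) [] J (lv N s0)
  taus : 0 < rf N (tN N) (lv N s0)

/-- The auxiliary objective function. -/
def dd (N : ℕ) (c : List ℤ) (J : List (List ℤ)) (s0 : List ℤ) : List ℤ :=
  dvec N (5 * bpar c [] J + 3) (tight J s0)

theorem length_dd : (dd N c J s0).length = N := length_dvec _ _ _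

theorem St0.tau_nonneg (h : St0 N c J s0) {y : EuclideanSpace ℝ (Fin N)}
    (hy : InC (rf N) [] J y) : 0 ≤ rf N (tN N) y := by
  have := hy.2 _ h.tauJ
  rw [rf_negV] at this
  linarith

/-- If the tight rows of the start vertex and `τ` vanish at `z` then `z = 0`. -/
theorem St0.zero (h : St0 N c J s0) {z : EuclideanSpace ℝ (Fin N)}
    (h1 : ∀ r ∈ tight J s0, rf N r z = 0) (h2 : rf N (tN N) z = 0) : z = 0 := by
  obtain ⟨s, hs⟩ := h.ext.ker z (by simp) fun r hr h0 =>
    h1 r ((mem_tight h.lenJ h.lens).2 ⟨hr, h0⟩)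
  rw [hs, map_smul, smul_eq_mul] at h2
  rw [hs, (mul_eq_zero.1 h2).resolve_right h.taus.ne', zero_smul]

theorem tight_getD (h : St0 N c J s0) {i : ℕ} (hi : i < (tight J s0).length) :
    (tight J s0).getD i [] ∈ J ∧ rf N ((tight J s0).getD i []) (lv N s0) = 0 := by
  rw [List.getD_eq_getElem _ _ hi]
  exact (mem_tight h.lenJ h.lens).1 (List.getElem_mem hi)

theorem St0.dd_start (h : St0 N c J s0) : rf N (dd N c J s0) (lv N s0) = 0 := by
  rw [dd, rf_dvec]
  refine Finset.sum_eq_zero fun i hi => ?_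
  rw [(tight_getD h (Finset.mem_range.1 hi)).2, mul_zero]

theorem St0.dd_nonpos (h : St0 N c J s0) {y : EuclideanSpace ℝ (Fin N)}
    (hy : InC (rf N) [] J y) : rf N (dd N c J s0) y ≤ 0 := by
  rw [dd, rf_dvec]
  refine Finset.sum_nonpos fun i hi => ?_
  exact mul_nonpos_of_nonneg_of_nonpos (by positivity)
    (hy.2 _ (tight_getD h (Finset.mem_range.1 hi)).1)

theorem St0.dd_zero (h : St0 N c J s0) {y : EuclideanSpace ℝ (Fin N)}
    (hy : InC (rf N) [] J y) (h0 : rf N (dd N c J s0) y = 0) : ∃ s : ℝ, y = s • lv N s0 := by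
  rw [dd, rf_dvec] at h0
  have h1 := (Finset.sum_eq_zero_iff_of_nonpos (fun i hi => mul_nonpos_of_nonneg_of_nonpos
    (by positivity) (hy.2 _ (tight_getD h (Finset.mem_range.1 hi)).1))).1 h0
  refine h.ext.ker y (by simp) fun r hr hr0 => ?_
  obtain ⟨i, hi, rfl⟩ := List.getElem_of_mem ((mem_tight h.lenJ h.lens).2 ⟨hr, hr0⟩)
  have h2 := h1 i (Finset.mem_range.2 hi)
  rw [List.getD_eq_getElem _ _ hi] at h2
  exact (mul_eq_zero.1 h2).resolve_left (by positivity)

/-- The functionals at integral points. -/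
theorem St0.rep (h : St0 N c J s0) {X : List ℤ} (hX : X.length = N)
    (hn : ‖lv N X‖ ≤ 2 ^ bpar c [] J) {r : List ℤ} (hr : r = tN N ∨ r = c ∨ r ∈ J) :
    rf N r (lv N X) = ((dot r X : ℤ) : ℝ) ∧ |((dot r X : ℤ) : ℝ)| ≤ 2 ^ (2 * bpar c [] J) := by
  have hlen : r.length = N := by
    rcases hr with rfl | rfl | hr
    · exact length_tN N
    · exact h.lenc
    · exact h.lenJ r hr
  have e := rf_dot hlen hX
  refine ⟨e, ?_⟩
  rw [← e]
  refine (abs_rf_le N r _).trans ?_
  have h1 : ‖lv N r‖ ≤ 2 ^ bpar c [] J := by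
    rcases hr with rfl | hr
    · rw [norm_tN h.pos]; exact one_le_pow₀ (by norm_num)
    · exact norm_le_bpar hr
  rw [two_mul, pow_add]
  exact mul_le_mul h1 hn (norm_nonneg _) (by positivity)

theorem St0.rep_tau (h : St0 N c J s0) {X : List ℤ} (hX : X.length = N)
    (hn : ‖lv N X‖ ≤ 2 ^ bpar c [] J) :
    |((dot (tN N) X : ℤ) : ℝ)| ≤ 2 ^ bpar c [] J := by
  rw [← rf_dot (length_tN N) hX]
  refine (abs_rf_le N _ _).trans ?_
  rw [norm_tN h.pos, one_mul]
  exact hn

theorem abs_det_le {a b c d A B : ℝ} (ha : |a| ≤ A) (hb : |b| ≤ B) (hc : |c| ≤ A) (hd : |d| ≤ B) :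
    |a * b - c * d| ≤ 2 * (A * B) := by
  have hA : 0 ≤ A := (abs_nonneg _).trans ha
  refine (abs_sub _ _).trans ?_
  rw [abs_mul, abs_mul]
  have h1 := mul_le_mul ha hb (abs_nonneg _) hA
  have h2 := mul_le_mul hc hd (abs_nonneg _) hA
  linarith

end Gen

end Pool.Agent.X97.SV
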