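import Pool.Agent.X97.SV.Path
import Pool.Agent.X239.CV.PolyT
set_option autoImplicit false

/-!
# Polynomial time
-/

namespace Pool.Agent.NPC.X97SV

open Pool.Agent.Y644.QS Pool.Agent.Y644.QW Pool.Agent.H687R2.LLL Pool.Agent.NPC.H532.RP
  Pool.Agent.NPC.Y644 Pool.Agent.X97.SV

/-- The answers of the rule. -/
abbrev Ans : Type := List ℚ ⊕ Option (List ℚ)

/-- The rule on lists. -/
def nxtL (x : Inp) (u : List ℚ) : Ans :=
  (nxtV x u).elim (Sum.inr none) fun w => X239CV.ansOf x.2.2.1.length w

/-- The rule on bit strings. -/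
def nxtB (s : List Bool) : Ans :=
  (unbits (Inp × List ℚ) s).elim (Sum.inr none) fun p => nxtL p.1 p.2

variable {α : Type} [TEnc α]

theorem poly_dvec {N κ : α → ℕ} {T : α → List (List ℤ)} (hN : UPoly N) (hκ : UPoly κ)
    (hT : Poly T) : Poly (fun a => dvec (N a) (κ a) (T a)) := by
  unfold dvec
  have hm : UPoly (fun p : (α × ℕ) × ℕ => κ p.1.1 * min p.2 (T p.1.1).length) := by
    refine UPoly.mul (by fun_prop) (UPoly.of_le (n := fun p => (T p.1.1).length) ?_ (by fun_prop)
      fun p => min_le_right _ _)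
    have : Poly (fun p : (α × ℕ) × ℕ => (T p.1.1).length) := UPoly.toPoly (by fun_prop)
    fun_prop
  have h2 : Poly (fun p : (α × ℕ) × ℕ => (2 : ℤ) ^ (κ p.1.1 * min p.2 (T p.1.1).length)) :=
    Poly.ipow (Poly.const 2) hm
  have h3 : Poly (fun p : (α × ℕ) × ℕ => ((T p.1.1).getD p.2 []).getD p.1.2 0) := by fun_prop
  have h4 : Poly (fun p : (α × ℕ) × ℕ => (2 : ℤ) ^ (κ p.1.1 * min p.2 (T p.1.1).length) *
      ((T p.1.1).getD p.2 []).getD p.1.2 0) := Poly.imul h2 h3
  have h5 : Poly (fun p : α × ℕ => (List.range (T p.1).length).map fun i =>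
      (2 : ℤ) ^ (κ p.1 * min i (T p.1).length) * ((T p.1).getD i []).getD p.2 0) :=
    Poly.map (F := fun (p : α × ℕ) i =>
      (2 : ℤ) ^ (κ p.1 * min i (T p.1).length) * ((T p.1).getD i []).getD p.2 0)
      (UPoly.range (by fun_prop)) h4
  have h6 := Poly.isum h5
  exact Poly.map (F := fun a j => ((List.range (T a).length).map fun i =>
      (2 : ℤ) ^ (κ a * min i (T a).length) * ((T a).getD i []).getD j 0).sum)
    (UPoly.range hN) h6

theorem upoly_bpar {c : α → List ℤ} {E J : α → List (List ℤ)} (hc : Poly c) (hE : Poly E)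
    (hJ : Poly J) : UPoly (fun a => bpar (c a) (E a) (J a)) := by
  unfold bpar
  fun_prop

attribute [local fun_prop] poly_dvec upoly_bpar

theorem poly_auxD : Poly auxD := by
  unfold auxD X97.SV.dd
  have h1 := poly_crow
  have h2 := X239CV.poly_rowsJ
  have h3 := poly_startV
  have h4 : Poly (fun x : Inp => tight (rowsJ x) (startV x)) := poly_tight h2 h3
  have h5 : UPoly (fun x : Inp => bpar (crow x) [] (rowsJ x)) := upoly_bpar h1 (Poly.const _) h2
  exact poly_dvec (UPoly.length h1) (by fun_prop) h4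

theorem poly_ob {c d : α → List ℤ} {K s : α → ℕ} (hc : Poly c) (hd : Poly d) (hK : UPoly K)
    (hs : Poly s) : Poly (fun a => ob (c a) (d a) (K a) (s a)) := by
  unfold ob
  have h1 : Poly (fun a => (2 : ℤ) ^ (K a)) := Poly.ipow (Poly.const 2) hK
  fun_prop

theorem upoly_kW {c d : α → List ℤ} {J : α → List (List ℤ)} (hc : Poly c) (hd : Poly d)
    (hJ : Poly J) : UPoly (fun a => kW (c a) (d a) (J a)) := by
  unfold kW
  have h1 : UPoly (fun a => bpar (c a) [] (J a)) := upoly_bpar hc (Poly.const _) hJ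
  fun_prop

attribute [local fun_prop] poly_ob upoly_kW

theorem poly_badW {c d x : α → List ℤ} {J : α → List (List ℤ)} {K s : α → ℕ} (hc : Poly c)
    (hd : Poly d) (hJ : Poly J) (hx : Poly x) (hK : UPoly K) (hs : Poly s) :
    Poly (fun a => badW (c a) (d a) (J a) (x a) (K a) (s a)) := by
  unfold badW
  have h1 : Poly (fun a => gain (ob (c a) (d a) (K a) (s a)) (x a)) :=
    poly_gain (poly_ob hc hd hK hs) hx
  have h2 : Poly (fun a => negV (gain (c a) (x a)) :: tight (J a) (x a)) := by fun_prop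
  exact poly_feas hc (Poly.const _) h2 h1

theorem poly_srchW {c d x : α → List ℤ} {J : α → List (List ℤ)} {K : α → ℕ} (hc : Poly c)
    (hd : Poly d) (hJ : Poly J) (hx : Poly x) (hK : UPoly K) :
    Poly (fun a => srchW (c a) (d a) (J a) (x a) (K a)) := by
  unfold srchW
  refine poly_search (A := fun a s => !badW (c a) (d a) (J a) (x a) (K a) s) hK ?_
  have h : Poly (fun p : α × ℕ => badW (c p.1) (d p.1) (J p.1) (x p.1) (K p.1) p.2) :=
    poly_badW (by fun_prop) (by fun_prop) (by fun_prop) (by fun_prop) (by fun_prop) (by fun_prop)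
  fun_prop

theorem poly_nxtW {c d x : α → List ℤ} {J : α → List (List ℤ)} (hc : Poly c)
    (hd : Poly d) (hJ : Poly J) (hx : Poly x) :
    Poly (fun a => nxtW (c a) (d a) (J a) (x a)) := by
  unfold nxtW
  have hK : UPoly (fun a => kW (c a) (d a) (J a)) := upoly_kW hc hd hJ
  have h1 : Poly (fun a => srchW (c a) (d a) (J a) (x a) (kW (c a) (d a) (J a)) + 1) :=
    Poly.succ (poly_srchW hc hd hJ hx hK)
  have h2 : Poly (fun a => ob (c a) (d a) (kW (c a) (d a) (J a))
      (srchW (c a) (d a) (J a) (x a) (kW (c a) (d a) (J a)) + 1)) := poly_ob hc hd hK h1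
  have h3 := poly_improve h2 (Poly.const ([] : List (List ℤ))) hJ hx
  have h4 : Poly (fun a => feas (c a) [] (tight (J a) (x a)) (gain (c a) (x a))) := by
    fun_prop
  exact Poly.ite (Poly.decide_bool h4) h3 (Poly.const none)

theorem poly_nxtV : Poly (fun p : Inp × List ℚ => nxtV p.1 p.2) := by
  unfold nxtV
  have h1 : Poly (fun p : Inp × List ℚ => crow p.1) := poly_crow.comp (Poly.fst Poly.id)
  have h2 : Poly (fun p : Inp × List ℚ => rowsJ p.1) := X239CV.poly_rowsJ.comp (Poly.fst Poly.id)
  have h3 : Poly (fun p : Inp × List ℚ => auxD p.1) := poly_auxD.comp (Poly.fst Poly.id)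
  have h4 : Poly (fun p : Inp × List ℚ => zrow (p.2 ++ [1])) := poly_zrow (by fun_prop)
  exact poly_nxtW h1 h3 h2 h4

theorem poly_nxtL : Poly (fun p : Inp × List ℚ => nxtL p.1 p.2) := by
  unfold nxtL
  have h1 : Poly (fun p : (Inp × List ℚ) × List ℤ => X239CV.ansOf p.1.1.2.2.1.length p.2) :=
    X239CV.poly_ansOf (by fun_prop) (by fun_prop)
  exact Poly.optElim (h := fun (p : Inp × List ℚ) w => X239CV.ansOf p.1.2.2.1.length w)
    poly_nxtV (Poly.const _) h1

theorem poly_nxtB : Poly nxtB := by
  have h1 : Poly (fun q : List Bool × (Inp × List ℚ) => nxtL q.2.1 q.2.2) :=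
    poly_nxtL.comp (f := fun q : List Bool × (Inp × List ℚ) => q.2) (Poly.snd Poly.id)
  have h2 : Poly (unbits (Inp × List ℚ)) := poly_unbits
  have h3 : Poly (fun _ : List Bool => (Sum.inr none : Ans)) := Poly.const _
  exact Poly.optElim (h := fun (_ : List Bool) (p : Inp × List ℚ) => nxtL p.1 p.2) h2 h3 h1

/-! ### The whole path -/

/-- The path so far (in reverse order), and the final answer. -/
abbrev St : Type := List (List ℚ) × Option (Option (List ℚ))

/-- One step. -/
def stp (x : Inp) (s : St) : St :=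
  s.2.elim ((nxtL x (s.1.head?.getD [])).elim (fun y => (y :: s.1, none))
    fun d => (s.1, some d)) fun _ => s

theorem poly_stp : Poly fun p : Inp × St => stp p.1 p.2 := by
  unfold stp
  have h1 : Poly fun p : Inp × St => nxtL p.1 (p.2.1.head?.getD []) := by
    have h2 : Poly fun p : Inp × St => p.2.1.head?.getD [] :=
      Poly.optGetD (Poly.head? (by fun_prop)) (Poly.const _)
    exact poly_nxtL.comp (f := fun p : Inp × St => (p.1, p.2.1.head?.getD []))
      (Poly.pair (by fun_prop) h2)
  have h4 : Poly fun p : Inp × St => ((nxtL p.1 (p.2.1.head?.getD [])).elim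
      (fun y => (y :: p.2.1, none)) fun d => (p.2.1, some d) : St) :=
    Poly.sumElim (g := fun (p : Inp × St) (y : List ℚ) => ((y :: p.2.1, none) : St))
      (h := fun (p : Inp × St) (d : Option (List ℚ)) => ((p.2.1, some d) : St)) h1
      (by fun_prop) (by fun_prop)
  exact Poly.optElim (h := fun (p : Inp × St) _ => p.2) (by fun_prop) h4 (by fun_prop)

theorem srchW_lt (c d : List ℤ) (J : List (List ℤ)) (x : List ℤ) (K : ℕ) :
    srchW c d J x K + 1 < 2 ^ (4 * K + 2) := by
  have h5 := bs_bound (A := fun s => !badW c d J x K s) (m := 2 * K) (List.range (2 * K + 1))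
  rw [List.length_range] at h5
  have h6 : srchW c d J x K ≤ (2 * K + 1) * 2 ^ (2 * K) := h5
  have h9 : 2 * K + 1 < 2 ^ (2 * K + 1) := Nat.lt_two_pow_self
  have h10 : 2 ^ (4 * K + 2) = 2 * (2 ^ (2 * K + 1) * 2 ^ (2 * K)) := by
    rw [← pow_add, ← pow_succ']; congr 1; ring
  have h11 : 1 ≤ 2 ^ (2 * K) := Nat.one_le_two_pow
  have h12 : (2 * K + 1) * 2 ^ (2 * K) < 2 ^ (2 * K + 1) * 2 ^ (2 * K) :=
    Nat.mul_lt_mul_of_pos_right h9 (by positivity)
  rw [h10]
  have h13 : 2 ^ (2 * K + 1) * 2 ^ (2 * K) ≥ 1 := Nat.one_le_iff_ne_zero.2 (by positivity)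
  omega

theorem nxt_bound : ∃ q : Polynomial ℕ, ∀ (x : Inp) (u : List ℚ),
    sz (nxtL x u) ≤ q.eval (sz x) := by
  obtain ⟨pV, hpV⟩ := normV_bound
  obtain ⟨qJ, hqJ⟩ := X239CV.poly_rowsJ.sz_le
  have hA : Poly (fun p : Inp × List ℤ => X239CV.ansOf p.1.2.2.1.length p.2) :=
    X239CV.poly_ansOf (by fun_prop) (by fun_prop)
  obtain ⟨qA, hqA⟩ := hA.sz_le
  -- the functional
  have hKx : UPoly (fun x : Inp => kW (crow x) (auxD x) (rowsJ x)) :=
    upoly_kW poly_crow poly_auxD X239CV.poly_rowsJ
  obtain ⟨w, hw⟩ := Poly.sz_le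
    (show Poly (fun x : Inp => List.replicate (kW (crow x) (auxD x) (rowsJ x)) ()) from hKx)
  have hO : Poly (fun p : Inp × ℕ => ob (crow p.1) (auxD p.1)
      (kW (crow p.1) (auxD p.1) (rowsJ p.1)) p.2) := by
    have h1 : Poly (fun p : Inp × ℕ => crow p.1) := poly_crow.comp (Poly.fst Poly.id)
    have h2 : Poly (fun p : Inp × ℕ => rowsJ p.1) := X239CV.poly_rowsJ.comp (Poly.fst Poly.id)
    have h3 : Poly (fun p : Inp × ℕ => auxD p.1) := poly_auxD.comp (Poly.fst Poly.id)
    exact poly_ob h1 h3 (upoly_kW h1 h3 h2) (Poly.snd Poly.id)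
  obtain ⟨qO, hqO⟩ := hO.sz_le
  refine ⟨qA.comp (Polynomial.X + pV.comp (qO.comp (Polynomial.X +
    (4 * (4 * w + 2) + 1) + 1) + 1 + qJ) + 1) +
    Polynomial.C (sz (Sum.inr none : Ans)), ?_⟩
  intro x u
  unfold nxtL
  rw [Polynomial.eval_add, Polynomial.eval_C]
  cases h : nxtV x u with
  | none => exact Nat.le_add_left _ _
  | some z =>
    rw [Option.elim_some]
    have hK : kW (crow x) (auxD x) (rowsJ x) ≤ w.eval (sz x) := by
      have := length_lt_sz (List.replicate (kW (crow x) (auxD x) (rowsJ x)) ())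
      rw [List.length_replicate] at this
      have := hw x
      omega
    have hu : sz z ≤ pV.eval (qO.eval (sz x + (4 * (4 * w.eval (sz x) + 2) + 1) + 1) + 1 +
        qJ.eval (sz x)) := by
      unfold nxtV nxtW improve at h
      split_ifs at h with hc hc'
      rw [Option.some.injEq] at h
      rw [← h]
      refine (hpV _ _ _ _).trans (eval_mono pV ?_)
      set s := srchW (crow x) (auxD x) (rowsJ x) (zrow (u ++ [1]))
        (kW (crow x) (auxD x) (rowsJ x)) + 1 with hs
      have h1 : sz (ob (crow x) (auxD x) (kW (crow x) (auxD x) (rowsJ x)) s) ≤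
          qO.eval (sz x + (4 * (4 * w.eval (sz x) + 2) + 1) + 1) := by
        refine (hqO (x, s)).trans (eval_mono qO ?_)
        rw [sz_pair]
        have h2 := sz_nat_of_lt (srchW_lt (crow x) (auxD x) (rowsJ x) (zrow (u ++ [1]))
          (kW (crow x) (auxD x) (rowsJ x)))
        rw [← hs] at h2
        omega
      have h2 : sz (rowsJ x) ≤ qJ.eval (sz x) := hqJ x
      have h3 : sz ([] : List (List ℤ)) ≤ 1 := by simp
      omega
    refine le_trans ?_ (Nat.le_add_right _ _)
    have h4 := hqA (x, z)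
    refine h4.trans ?_
    rw [Polynomial.eval_comp]
    refine eval_mono qA ?_
    rw [sz_pair]
    simp only [Polynomial.eval_add, Polynomial.eval_mul, Polynomial.eval_comp, Polynomial.eval_X,
      Polynomial.eval_one, Polynomial.eval_ofNat]
    omega

theorem stp_bound : ∃ q : Polynomial ℕ, ∀ (x : Inp) (s : St),
    sz (stp x s) ≤ sz s + q.eval (sz x) := by
  obtain ⟨q, hq⟩ := nxt_bound
  have hin : ∀ y : List ℚ, sz y ≤ sz (Sum.inl y : Ans) := fun y => by
    rw [sz_inl]; omega
  have hin2 : ∀ d : Option (List ℚ), sz d ≤ sz (Sum.inr d : Ans) := fun d => by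
    rw [sz_inr]; omega
  refine ⟨q + 20, fun x s => ?_⟩
  obtain ⟨P, o⟩ := s
  unfold stp
  rw [Polynomial.eval_add]
  have e20 : (20 : Polynomial ℕ).eval (sz x) = 20 := by simp
  rw [e20]
  cases o with
  | some d => rw [Option.elim_some]; omega
  | none =>
    rw [Option.elim_none]
    have h := hq x (P.head?.getD [])
    simp only
    cases hn : nxtL x (P.head?.getD []) with
    | inl y =>
      rw [hn] at h
      have h1 := hin y
      rw [Sum.elim_inl, sz_pair, sz_pair, sz_list_cons]
      omega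
    | inr d =>
      rw [hn] at h
      have h1 := hin2 d
      have h2 : sz (some d) ≤ sz d + 5 := by rw [sz_some]; omega
      have h3 := sz_pos (none : Option (Option (List ℚ)))
      rw [Sum.elim_inr, sz_pair, sz_pair]
      omega

theorem iter_bound {q : Polynomial ℕ} (hq : ∀ (x : Inp) (s : St), sz (stp x s) ≤ sz s + q.eval (sz x))
    (x : Inp) (s : St) (k : ℕ) : sz ((stp x)^[k] s) ≤ sz s + k * q.eval (sz x) := by
  induction k with
  | zero => simp
  | succ k ih =>
    rw [Function.iterate_succ_apply', Nat.succ_mul]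
    have := hq x ((stp x)^[k] s)
    omega

theorem poly_run {K : α → ℕ} {x : α → Inp} (hx : Poly x) (hK : UPoly K) :
    Poly fun a => (stp (x a))^[K a] ([(x a).2.2.2], none) := by
  obtain ⟨q, hq⟩ := stp_bound
  obtain ⟨qx, hqx⟩ := hx.sz_le
  obtain ⟨w, hw⟩ := Poly.sz_le (show Poly (fun a => List.replicate (K a) ()) from hK)
  have hs : Poly (fun a => (([(x a).2.2.2], none) : St)) := by fun_prop
  obtain ⟨q4, hq4⟩ := hs.sz_le
  refine NPC.Poly.iterU (F := fun a s => stp (x a) s) hK hs
    (poly_stp.comp (f := fun p : α × St => (x p.1, p.2)) (by fun_prop))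
    (q4 + w * q.comp qx) ?_
  intro a k hk
  refine (iter_bound hq (x a) _ k).trans ?_
  have h5 : K a ≤ w.eval (sz a) := by
    have := length_lt_sz (List.replicate (K a) ())
    rw [List.length_replicate] at this
    have := hw a
    omega
  rw [Polynomial.eval_add, Polynomial.eval_mul, Polynomial.eval_comp]
  exact Nat.add_le_add (hq4 a) (Nat.mul_le_mul (hk.trans h5) (eval_mono q (hqx a)))

/-- The output for a state. -/
def outS (s : St) : Outp := (s.1.reverse, s.2.getD none)

/-- The algorithm on bit strings, with `K` steps. -/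
def runB (s : List Bool) (K : ℕ) : Outp :=
  (unbits Inp s).elim ([], none) fun x => outS ((stp x)^[K] ([x.2.2.2], none))

theorem poly_runB {s : α → List Bool} {K : α → ℕ} (hs : Poly s) (hK : UPoly K) :
    Poly fun a => runB (s a) (K a) := by
  unfold runB
  have h1 : Poly (fun a => unbits Inp (s a)) := poly_unbits.comp hs
  have h2 : Poly (fun p : α × Inp => (stp p.2)^[K p.1] ([p.2.2.2.2], none)) :=
    poly_run (Poly.snd Poly.id) (by fun_prop)
  have h3 : Poly (fun p : α × Inp => outS ((stp p.2)^[K p.1] ([p.2.2.2.2], none))) := by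
    have h4 : Poly outS := by
      unfold outS
      exact Poly.pair (by fun_prop) (Poly.optGetD (Poly.snd Poly.id) (Poly.const _))
    exact h4.comp h2
  exact Poly.optElim (h := fun a y => outS ((stp y)^[K a] ([y.2.2.2], none))) h1 (Poly.const _) h3

/-! ### Correctness -/

variable {m n : ℕ} {A : Fin m → Fin n → ℚ} {b : Fin m → ℚ} {c v : Fin n → ℚ}

theorem nxtL_inp (u : Fin n → ℚ) : nxtL (Pool.Agent.Y644.QS.inp A b c v) (List.ofFn u) =
    Sum.map List.ofFn (Option.map List.ofFn) (nxt A b c v u) := by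
  unfold nxtL nxt
  have hn : (Pool.Agent.Y644.QS.inp A b c v).2.2.1.length = n := by
    simp [Pool.Agent.Y644.QS.inp]
  rw [hn]
  cases nxtV (Pool.Agent.Y644.QS.inp A b c v) (List.ofFn u) with
  | none => rfl
  | some w =>
    rw [Option.elim_some, Option.elim_some]
    unfold X239CV.ansOf
    by_cases hu : 0 < w.getD n 0
    · rw [if_pos hu, if_pos hu, Sum.map_inl, ofFn_xq hu]
    · rw [if_neg hu, if_neg hu, Sum.map_inr, Option.map_some, ofFn_dq]

theorem nxtB_inp (u : Fin n → ℚ) :
    nxtB (bits (Pool.Agent.Y644.QS.inp A b c v, (List.ofFn u : List ℚ))) =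
      Sum.map List.ofFn (Option.map List.ofFn) (nxt A b c v u) := by
  unfold nxtB
  rw [unbits_bits, Option.elim_some, nxtL_inp]

theorem run_path {N : ℕ} {x : ℕ → Fin n → ℚ} {d : Option (Fin n → ℚ)}
    (hx0 : x 0 = v) (hq : ∀ k < N, nxt A b c v (x k) = Sum.inl (x (k + 1)))
    (hr : nxt A b c v (x N) = Sum.inr d) {K : ℕ} (hK : N + 1 ≤ K) :
    runB (bits (Pool.Agent.Y644.QS.inp A b c v)) K =
      ((List.range (N + 1)).map (fun k => List.ofFn (x k)), d.map List.ofFn) := by
  unfold runB
  rw [unbits_bits, Option.elim_some]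
  set X := Pool.Agent.Y644.QS.inp A b c v with hX
  have h1 : ∀ k ≤ N, (stp X)^[k] ([X.2.2.2], none) =
      (((List.range (k + 1)).map fun k => List.ofFn (x k)).reverse, none) := by
    intro k
    induction k with
    | zero =>
      intro _
      have e : X.2.2.2 = List.ofFn v := rfl
      rw [Function.iterate_zero_apply, e]
      simp [hx0]
    | succ k ih =>
      intro hk
      rw [Function.iterate_succ_apply', ih (by omega)]
      unfold stp
      have e : ((((List.range (k + 1)).map fun k => List.ofFn (x k)).reverse).head?.getD []) =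
          List.ofFn (x k) := by
        rw [List.range_succ, List.map_append, List.reverse_append]
        simp
      simp only [Option.elim_none]
      rw [e, hX, nxtL_inp, hq k (by omega), Sum.map_inl, Sum.elim_inl]
      congr 1
      rw [List.range_succ (n := k + 1), List.map_append, List.reverse_append]
      simp
  have h2 : (stp X)^[N + 1] ([X.2.2.2], none) =
      (((List.range (N + 1)).map fun k => List.ofFn (x k)).reverse, some (d.map List.ofFn)) := by
    rw [Function.iterate_succ_apply', h1 N le_rfl]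
    unfold stp
    have e : ((((List.range (N + 1)).map fun k => List.ofFn (x k)).reverse).head?.getD []) =
        List.ofFn (x N) := by
      rw [List.range_succ, List.map_append, List.reverse_append]
      simp
    simp only [Option.elim_none]
    rw [e, hX, nxtL_inp, hr, Sum.map_inr, Sum.elim_inr]
  have h3 : ∀ k, (stp X)^[k + (N + 1)] ([X.2.2.2], none) =
      (((List.range (N + 1)).map fun k => List.ofFn (x k)).reverse, some (d.map List.ofFn)) := by
    intro k
    induction k with
    | zero => rw [Nat.zero_add]; exact h2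
    | succ k ih =>
      rw [show k + 1 + (N + 1) = (k + (N + 1)) + 1 by omega, Function.iterate_succ_apply', ih]
      rfl
  obtain ⟨k, rfl⟩ := Nat.exists_eq_add_of_le' hK
  rw [h3]
  unfold outS
  simp

theorem polyTime_nxt : PolyTime fun s => bits (nxtB s) := polyTime_bits poly_nxtB

theorem polyTime_run (e : ℕ) : PolyTime fun s => bits (runB s ((s.length + 1) ^ e)) :=
  polyTime_bits (poly_runB Poly.id (UPoly_pow (by fun_prop) _))

end Pool.Agent.NPC.X97SV
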