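import Pool.Agent.X97.SV.Gen
set_option autoImplicit false

/-!
# One step of the shadow vertex rule
-/

namespace Pool.Agent.X97.SV

open Pool.Agent.Y644.QS Pool.Agent.H687R2.LLL Pool.Agent.NPC

/-! ### Wrappers -/

section Wrap

variable {N : ℕ} {o g v w : List ℤ} {E J : List (List ℤ)}

theorem improve_someN (ho : o.length = N) (hE : Len N E) (hJ : Len N J) (hv : v.length = N)
    (hτJ : negV (tN N) ∈ J) (hext : Ext (rf N) E J (lv N v)) (hτ : 0 < rf N (tN N) (lv N v))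
    (h : improve o E J v = some w) : w.length = N ∧ Ext (rf N) E J (lv N w) ∧
      Adj (rf N) E J (lv N v) (lv N w) ∧ Up (rf N (tN N)) (rf N o) (lv N v) (lv N w) := by
  subst ho
  have := improve_some hE hJ hv hτJ hext hτ h
  exact ⟨this.len, this.ext, this.adj, this.up⟩

theorem feas_iffN (ho : o.length = N) (hE : Len N E) (hJ : Len N J) (hg : g.length = N) :
    feas o E J g = true ↔ ∃ h, InC (rf N) E J h ∧ 0 < rf N g h := by
  subst ho
  exact feas_iff hE hJ hg

theorem length_gainN (ho : o.length = N) : (gain o v).length = N := (length_gain o v).trans ho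

theorem rf_gainN (ho : o.length = N) (hv : v.length = N) (h : EuclideanSpace ℝ (Fin N)) :
    rf N (gain o v) h = gn (rf N (tN N)) (rf N o) (lv N v) h := by
  subst ho
  exact rf_gain hv h

end Wrap

/-! ### Tangent directions -/

section Tan

variable {ρ V : Type*} [AddCommGroup V] [Module ℝ V] {φ : ρ → V →ₗ[ℝ] ℝ}

theorem exists_tan {x h : V} : ∀ {J : List ρ}, (∀ r ∈ J, φ r x ≤ 0) →
    (∀ r ∈ J, φ r x = 0 → φ r h ≤ 0) → ∃ ε : ℝ, 0 < ε ∧ ∀ r ∈ J, φ r x + ε * φ r h ≤ 0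
  | [], _, _ => ⟨1, one_pos, by simp⟩
  | r :: J, h1, h2 => by
    obtain ⟨ε, hε, hJ⟩ := exists_tan (J := J) (fun q hq => h1 q (by simp [hq]))
      fun q hq => h2 q (by simp [hq])
    -- smaller steps are also possible
    have hJ' : ∀ δ : ℝ, 0 < δ → δ ≤ ε → ∀ q ∈ J, φ q x + δ * φ q h ≤ 0 := by
      intro δ hδ hδε q hq
      have a1 := hJ q hq
      have a2 := h1 q (by simp [hq])
      rcases le_total 0 (φ q h) with a3 | a3
      · have := mul_le_mul_of_nonneg_right hδε a3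
        linarith
      · have := mul_nonpos_of_nonneg_of_nonpos hδ.le a3
        linarith
    by_cases h0 : φ r x = 0
    · refine ⟨ε, hε, fun q hq => ?_⟩
      rcases List.mem_cons.1 hq with rfl | hq
      · have := mul_nonpos_of_nonneg_of_nonpos hε.le (h2 q (by simp) h0)
        linarith
      · exact hJ q hq
    · have hneg : 0 < -φ r x := by
        have := lt_of_le_of_ne (h1 r (by simp)) h0
        linarith
      have hδ : 0 < min ε (-φ r x / (|φ r h| + 1)) := lt_min hε (by positivity)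
      refine ⟨_, hδ, fun q hq => ?_⟩
      rcases List.mem_cons.1 hq with rfl | hq
      · have h3 : min ε (-φ q x / (|φ q h| + 1)) * |φ q h| ≤ -φ q x := by
          refine (mul_le_mul_of_nonneg_right (min_le_right _ _) (abs_nonneg _)).trans ?_
          rw [div_mul_eq_mul_div, div_le_iff₀ (by positivity)]
          nlinarith [abs_nonneg (φ q h)]
        have h4 := mul_le_mul_of_nonneg_left (le_abs_self (φ q h)) hδ.le
        linarith
      · exact hJ' _ hδ (min_le_left _ _) q hq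

theorem gn_self (τ f : V →ₗ[ℝ] ℝ) (x : V) : gn τ f x x = 0 := by
  unfold gn; ring

/-- A tangent direction on which a gain is positive. -/
theorem tan_gain {J : List ρ} {x h : V} (hx : InC φ [] J x)
    (hh : ∀ r ∈ J, φ r x = 0 → φ r h ≤ 0) (τ c d : V →ₗ[ℝ] ℝ) (μ : ℝ)
    (hp : 0 < gn τ d x h + μ * gn τ c x h) :
    ∃ y, InC φ [] J y ∧ 0 < gn τ d x y + μ * gn τ c x y := by
  obtain ⟨ε, hε, hJ⟩ := exists_tan hx.2 hh
  refine ⟨x + ε • h, ⟨by simp, fun r hr => ?_⟩, ?_⟩
  · rw [map_add, map_smul, smul_eq_mul]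
    exact hJ r hr
  · rw [gn_add_smul, gn_add_smul, gn_self, gn_self]
    have := mul_pos hε hp
    linarith

/-- `TopM` passes to the other end of an edge. -/
theorem TopM.trans {J : List ρ} {τ c d : V →ₗ[ℝ] ℝ} {μ : ℝ} {x w : V} (h : TopM φ J τ c d μ x)
    (hx : 0 < τ x) (hw : 0 ≤ τ w) (h0 : gn τ d x w + μ * gn τ c x w = 0) : TopM φ J τ c d μ w := by
  intro y hy
  have h1 := h y hy
  unfold gn at h0 h1 ⊢
  have e : τ x * (τ w * d y - d w * τ y + μ * (τ w * c y - c w * τ y)) =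
      τ w * (τ x * d y - d x * τ y + μ * (τ x * c y - c x * τ y)) := by
    linear_combination (-τ y) * h0
  have h2 : τ x * (τ w * d y - d w * τ y + μ * (τ w * c y - c w * τ y)) ≤ 0 := by
    rw [e]
    exact mul_nonpos_of_nonneg_of_nonpos hw h1
  exact nonpos_of_mul_nonpos_right h2 hx

theorem TopM.of_ext {J : List ρ} {τ c d : V →ₗ[ℝ] ℝ} {μ : ℝ} {x : V}
    (hpt : ∀ h : V, (∀ r ∈ ([] : List ρ), φ r h = 0) → (∀ r ∈ J, φ r h = 0) → h = 0)
    (h : ∀ u, Ext φ [] J u → gn τ d x u + μ * gn τ c x u ≤ 0) : TopM φ J τ c d μ x := by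
  intro y hy
  by_contra hcon
  push Not at hcon
  obtain ⟨u, hu, hpos⟩ := exists_ext hpt (g := gL τ d x + μ • gL τ c x) hy (by
    rw [LinearMap.add_apply, LinearMap.smul_apply, gL_apply, gL_apply, smul_eq_mul]; exact hcon)
  rw [LinearMap.add_apply, LinearMap.smul_apply, gL_apply, gL_apply, smul_eq_mul] at hpos
  exact absurd (h u hu) (not_le.2 hpos)

end Tan

/-! ### The rule -/

/-- The functional `2 ^ K d + s c`. -/
def ob (c d : List ℤ) (K s : ℕ) : List ℤ := comb (2 ^ K) d (-(s : ℤ)) c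

/-- Is `s / 2 ^ K` larger than the next slope? -/
def badW (c d : List ℤ) (J : List (List ℤ)) (x : List ℤ) (K s : ℕ) : Bool :=
  feas c [] (negV (gain c x) :: tight J x) (gain (ob c d K s) x)

/-- The precision. -/
def kW (c d : List ℤ) (J : List (List ℤ)) : ℕ := 6 * bpar c [] J + 3 + sz d

/-- The largest `s` for which `s / 2 ^ K` is at most the next slope. -/
def srchW (c d : List ℤ) (J : List (List ℤ)) (x : List ℤ) (K : ℕ) : ℕ :=
  (List.range (2 * K + 1)).foldr
    (fun i s => if (!badW c d J x K (s + 2 ^ min i (2 * K))) = true then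
      s + 2 ^ min i (2 * K) else s) 0

/-- The next vertex. -/
def nxtW (c d : List ℤ) (J : List (List ℤ)) (x : List ℤ) : Option (List ℤ) :=
  if feas c [] (tight J x) (gain c x) = true then
    improve (ob c d (kW c d J) (srchW c d J x (kW c d J) + 1)) [] J x
  else none

theorem srchW_eq (c d : List ℤ) (J : List (List ℤ)) (x : List ℤ) (K : ℕ) :
    srchW c d J x K = (List.range (2 * K + 1)).foldr
      (fun i s => if (fun s => !badW c d J x K s) (s + 2 ^ i) = true then s + 2 ^ i else s)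
      0 := by
  unfold srchW
  refine List.foldr_ext _ _ _ fun i hi s => ?_
  rw [List.mem_range] at hi
  rw [min_eq_left (by omega)]

section Step

variable {N : ℕ} {c s0 x w : List ℤ} {J : List (List ℤ)} {p q : ℝ}

/-- The pencil. -/
def Tp (N : ℕ) (c : List ℤ) (J : List (List ℤ)) (s0 : List ℤ) (μ : ℝ)
    (x : EuclideanSpace ℝ (Fin N)) : Prop :=
  TopM (rf N) J (rf N (tN N)) (rf N c) (rf N (dd N c J s0)) μ x

/-- The gain of `c`. -/
noncomputable def gc (N : ℕ) (c : List ℤ) (x y : EuclideanSpace ℝ (Fin N)) : ℝ :=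
  gn (rf N (tN N)) (rf N c) x y

/-- The gain of the auxiliary objective function. -/
noncomputable def gd (N : ℕ) (c : List ℤ) (J : List (List ℤ)) (s0 : List ℤ)
    (x y : EuclideanSpace ℝ (Fin N)) : ℝ := gn (rf N (tN N)) (rf N (dd N c J s0)) x y

/-- The invariant of the path. -/
structure Inv (N : ℕ) (c : List ℤ) (J : List (List ℤ)) (s0 x : List ℤ) (p : ℝ) : Prop where
  len : x.length = N
  ext : Ext (rf N) [] J (lv N x)
  pos : 0 < rf N (tN N) (lv N x)
  nonneg : 0 ≤ p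
  top : Tp N c J s0 p (lv N x)
  prev : p = 0 ∨ ∃ x' : EuclideanSpace ℝ (Fin N), Ext (rf N) [] J x' ∧ 0 < rf N (tN N) x' ∧
    Up (rf N (tN N)) (rf N c) x' (lv N x) ∧ gd N c J s0 (lv N x) x' + p * gc N c (lv N x) x' = 0

theorem St0.pt (h : St0 N c J s0) : ∀ y : EuclideanSpace ℝ (Fin N),
    (∀ r ∈ ([] : List (List ℤ)), rf N r y = 0) → (∀ r ∈ J, rf N r y = 0) → y = 0 := by
  intro y _ hy
  refine h.zero (fun r hr => hy r ((mem_tight h.lenJ h.lens).1 hr).1) ?_
  have := hy _ h.tauJ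
  rw [rf_negV] at this
  linarith

theorem St0.inv (h : St0 N c J s0) : Inv N c J s0 s0 0 := by
  refine ⟨h.lens, h.ext, h.taus, le_rfl, fun y hy => ?_, Or.inl rfl⟩
  rw [zero_mul, add_zero]
  unfold gn
  rw [h.dd_start, zero_mul, sub_zero]
  exact mul_nonpos_of_nonneg_of_nonpos h.taus.le (h.dd_nonpos hy)

theorem St0.tau_or (h : St0 N c J s0) {y u : EuclideanSpace ℝ (Fin N)}
    (hu : InC (rf N) [] J u) (hy : 0 < rf N (tN N) y) (hup : 0 < gc N c y u) :
    0 < rf N (tN N) u ∨ 0 < rf N c u := by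
  rcases (h.tau_nonneg hu).lt_or_eq with h0 | h0
  · exact Or.inl h0
  · right
    unfold gc gn at hup
    rw [← h0, mul_zero, sub_zero] at hup
    exact (mul_pos_iff_of_pos_left hy).1 hup

theorem Inv.strict (hi : Inv N c J s0 x p) (h : St0 N c J s0) {u : EuclideanSpace ℝ (Fin N)}
    (hu : Ext (rf N) [] J u) (hup : 0 < gc N c (lv N x) u) :
    gd N c J s0 (lv N x) u + p * gc N c (lv N x) u < 0 := by
  refine lt_of_le_of_ne (hi.top u hu.mem) fun h0 => ?_
  have hup' : Up (rf N (tN N)) (rf N c) (lv N x) u := up_iff.2 hup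
  rcases hi.prev with rfl | ⟨x', h1, h2, h3, h4⟩
  · rw [zero_mul, add_zero] at h0
    exact hup'.not_smul (h.two hi.ext hu hi.pos h0)
  · exact h.three h1 hi.ext hu h2 hi.pos (h.tau_or hu.mem hi.pos hup) h4 h0 h3 hup'

/-- The slopes are rational numbers of bounded size. -/
theorem Inv.slope (hi : Inv N c J s0 x p) (h : St0 N c J s0) {u : EuclideanSpace ℝ (Fin N)}
    (hu : Ext (rf N) [] J u) (hup : 0 < gc N c (lv N x) u) :
    ∃ P Q : ℤ, 0 < Q ∧ (Q : ℝ) ≤ 2 ^ (3 * bpar c [] J + 1) ∧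
      |(P : ℝ)| ≤ 2 ^ (2 * bpar c [] J + sz (dd N c J s0) + 1) ∧
      gd N c J s0 (lv N x) u * Q = -(P * gc N c (lv N x) u) := by
  obtain ⟨X, X1, X2, sx, X3, X4⟩ := intRep h.pos h.lenc h.lenJ hi.ext (Or.inl hi.pos)
  obtain ⟨U, U1, U2, su, U3, U4⟩ := intRep h.pos h.lenc h.lenJ hu (h.tau_or hu.mem hi.pos hup)
  set b := bpar c [] J with hb
  obtain ⟨d1, -⟩ := h.rep X1 X2 (r := tN N) (Or.inl rfl)
  obtain ⟨f1, -⟩ := h.rep U1 U2 (r := tN N) (Or.inl rfl)
  obtain ⟨g1, g2⟩ := h.rep X1 X2 (r := c) (Or.inr (Or.inl rfl))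
  obtain ⟨j1, j2⟩ := h.rep U1 U2 (r := c) (Or.inr (Or.inl rfl))
  have d2 := h.rep_tau X1 X2
  have f2 := h.rep_tau U1 U2
  have k1 := rf_dot (N := N) (length_dd (N := N) (c := c) (J := J) (s0 := s0)) X1
  have k2 := rf_dot (N := N) (length_dd (N := N) (c := c) (J := J) (s0 := s0)) U1
  have hdn : ∀ Y : List ℤ, ‖lv N Y‖ ≤ 2 ^ b →
      |rf N (dd N c J s0) (lv N Y)| ≤ 2 ^ (sz (dd N c J s0) + b) := by
    intro Y hY
    refine (abs_rf_le N _ _).trans ?_
    rw [pow_add]
    exact mul_le_mul norm_lv_lt hY (norm_nonneg _) (by positivity)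
  have k3 := hdn X X2
  have k4 := hdn U U2
  rw [k1] at k3
  rw [k2] at k4
  have hgc : ((dot (tN N) X * dot c U - dot c X * dot (tN N) U : ℤ) : ℝ) =
      sx * su * gc N c (lv N x) u := by
    rw [gc, ← gn_smul_smul, ← X4, ← U4, gn, d1, f1, g1, j1]
    push_cast
    ring
  have hgd : ((dot (tN N) X * dot (dd N c J s0) U - dot (dd N c J s0) X * dot (tN N) U : ℤ) : ℝ) =
      sx * su * gd N c J s0 (lv N x) u := by
    rw [gd, ← gn_smul_smul, ← X4, ← U4, gn, d1, f1, k1, k2]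
    push_cast
    ring
  refine ⟨-(dot (tN N) X * dot (dd N c J s0) U - dot (dd N c J s0) X * dot (tN N) U),
    dot (tN N) X * dot c U - dot c X * dot (tN N) U, ?_, ?_, ?_, ?_⟩
  · have : (0 : ℝ) < ((dot (tN N) X * dot c U - dot c X * dot (tN N) U : ℤ) : ℝ) := by
      rw [hgc]
      exact mul_pos (mul_pos X3 U3) hup
    exact_mod_cast this
  · refine (le_abs_self _).trans ?_
    push_cast
    have := abs_det_le d2 j2 f2 g2
    rw [← pow_add, ← pow_succ'] at this
    rw [mul_comm ((dot c X : ℤ) : ℝ)]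
    refine this.trans (pow_le_pow_right₀ (by norm_num) (by omega))
  · push_cast
    rw [abs_neg]
    have := abs_det_le d2 k4 f2 k3
    rw [← pow_add, ← pow_succ'] at this
    rw [mul_comm ((dot (dd N c J s0) X : ℤ) : ℝ)]
    refine this.trans (pow_le_pow_right₀ (by norm_num) (by omega))
  · rw [hgc, Int.cast_neg, hgd]
    ring

theorem gap_arith {μ μ' M : ℝ} {P Q P' Q' : ℤ} (h1 : μ * Q = P) (h2 : μ' * Q' = P')
    (h3 : 0 < Q) (h4 : 0 < Q') (h5 : (Q : ℝ) ≤ M) (h6 : (Q' : ℝ) ≤ M) (h7 : μ < μ') :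
    1 ≤ (μ' - μ) * (M * M) := by
  have hQ : (0 : ℝ) < Q := by exact_mod_cast h3
  have hQ' : (0 : ℝ) < Q' := by exact_mod_cast h4
  have e : ((P' * Q - P * Q' : ℤ) : ℝ) = (μ' - μ) * (Q * Q') := by
    push_cast
    rw [← h1, ← h2]
    ring
  have h8 : (0 : ℝ) < ((P' * Q - P * Q' : ℤ) : ℝ) := by
    rw [e]
    exact mul_pos (by linarith) (mul_pos hQ hQ')
  have h9 : (1 : ℝ) ≤ ((P' * Q - P * Q' : ℤ) : ℝ) := by
    have : 0 < P' * Q - P * Q' := by exact_mod_cast h8
    exact_mod_cast (show 1 ≤ P' * Q - P * Q' by omega)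
  rw [e] at h9
  refine h9.trans (mul_le_mul_of_nonneg_left ?_ (by linarith))
  exact mul_le_mul h5 h6 hQ'.le (hQ.le.trans h5)

/-- The slope. -/
noncomputable def slp (N : ℕ) (c : List ℤ) (J : List (List ℤ)) (s0 : List ℤ)
    (x u : EuclideanSpace ℝ (Fin N)) : ℝ := -gd N c J s0 x u / gc N c x u

theorem slp_mul {x u : EuclideanSpace ℝ (Fin N)} (hup : 0 < gc N c x u) :
    gd N c J s0 x u = -(slp N c J s0 x u * gc N c x u) := by
  unfold slp
  rw [div_mul_cancel₀ _ hup.ne', neg_neg]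

theorem Inv.slope' (hi : Inv N c J s0 x p) (h : St0 N c J s0) {u : EuclideanSpace ℝ (Fin N)}
    (hu : Ext (rf N) [] J u) (hup : 0 < gc N c (lv N x) u) :
    ∃ P Q : ℤ, 0 < Q ∧ (Q : ℝ) ≤ 2 ^ (3 * bpar c [] J + 1) ∧
      |(P : ℝ)| ≤ 2 ^ (2 * bpar c [] J + sz (dd N c J s0) + 1) ∧
      slp N c J s0 (lv N x) u * Q = P := by
  obtain ⟨P, Q, h1, h2, h3, h4⟩ := hi.slope h hu hup
  refine ⟨P, Q, h1, h2, h3, ?_⟩
  rw [slp_mul hup] at h4
  have h5 : gc N c (lv N x) u * (slp N c J s0 (lv N x) u * Q - P) = 0 := by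
    linear_combination (-1 : ℝ) * h4
  have h6 := (mul_eq_zero.1 h5).resolve_left hup.ne'
  linarith

/-- The next breakpoint. -/
theorem Inv.next (hi : Inv N c J s0 x p) (h : St0 N c J s0) {u0 : EuclideanSpace ℝ (Fin N)}
    (hu0 : Ext (rf N) [] J u0) (hup0 : 0 < gc N c (lv N x) u0) :
    ∃ w0 : EuclideanSpace ℝ (Fin N), Ext (rf N) [] J w0 ∧ 0 < gc N c (lv N x) w0 ∧
      ∀ u, Ext (rf N) [] J u → 0 < gc N c (lv N x) u →
        slp N c J s0 (lv N x) w0 ≤ slp N c J s0 (lv N x) u := by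
  classical
  set S : Set (EuclideanSpace ℝ (Fin N)) := {u | Ext (rf N) [] J u ∧ 0 < gc N c (lv N x) u}
    with hS
  set B : ℤ := 2 ^ (2 * bpar c [] J + sz (dd N c J s0) + 1) with hB
  set M : ℤ := 2 ^ (3 * bpar c [] J + 1) with hM
  have hfin : (slp N c J s0 (lv N x) '' S).Finite := by
    refine (Set.Finite.image (fun t : ℤ × ℤ => (t.1 : ℝ) / t.2)
      ((Set.finite_Icc (-B) B).prod (Set.finite_Icc 1 M))).subset ?_
    rintro _ ⟨u, ⟨hu, hup⟩, rfl⟩
    obtain ⟨P, Q, h1, h2, h3, h4⟩ := hi.slope' h hu hup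
    have h5 := abs_le.1 h3
    refine ⟨(P, Q), ⟨⟨?_, ?_⟩, ⟨?_, ?_⟩⟩, ?_⟩
    · have : ((-B : ℤ) : ℝ) ≤ P := by rw [hB]; push_cast; exact h5.1
      exact_mod_cast this
    · have : (P : ℝ) ≤ (B : ℤ) := by rw [hB]; push_cast; exact h5.2
      exact_mod_cast this
    · change 1 ≤ Q
      omega
    · have : (Q : ℝ) ≤ (M : ℤ) := by rw [hM]; push_cast; exact h2
      exact_mod_cast this
    · have hQ : (0 : ℝ) < Q := by exact_mod_cast h1
      change (P : ℝ) / Q = _
      rw [div_eq_iff hQ.ne', h4]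
  obtain ⟨y, ⟨w0, hw0, rfl⟩, hmin⟩ := Set.exists_min_image _ id hfin
    ⟨_, ⟨u0, ⟨hu0, hup0⟩, rfl⟩⟩
  exact ⟨w0, hw0.1, hw0.2, fun u hu hup => hmin _ ⟨u, ⟨hu, hup⟩, rfl⟩⟩

theorem rf_ob (h : St0 N c J s0) {K s : ℕ} (y : EuclideanSpace ℝ (Fin N)) :
    rf N (ob c (dd N c J s0) K s) y = 2 ^ K * rf N (dd N c J s0) y + s * rf N c y := by
  rw [ob, rf_comb length_dd h.lenc]
  push_cast
  ring

theorem length_ob (h : St0 N c J s0) {K s : ℕ} : (ob c (dd N c J s0) K s).length = N :=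
  length_comb length_dd h.lenc _ _

theorem gn_ob (h : St0 N c J s0) {K s : ℕ} (x y : EuclideanSpace ℝ (Fin N)) :
    gn (rf N (tN N)) (rf N (ob c (dd N c J s0) K s)) x y =
      2 ^ K * gd N c J s0 x y + s * gc N c x y := by
  unfold gd gc gn
  rw [rf_ob h, rf_ob h]
  ring

/-- The facts about one step. -/
theorem Inv.step (hi : Inv N c J s0 x p) (h : St0 N c J s0) :
    (nxtW c (dd N c J s0) J x = none → ∀ y, InC (rf N) [] J y → gc N c (lv N x) y ≤ 0) ∧
    ∀ w, nxtW c (dd N c J s0) J x = some w → w.length = N ∧ Ext (rf N) [] J (lv N w) ∧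
      Adj (rf N) [] J (lv N x) (lv N w) ∧ Up (rf N (tN N)) (rf N c) (lv N x) (lv N w) ∧
      ∃ q, p < q ∧ Tp N c J s0 q (lv N x) ∧ (0 < rf N (tN N) (lv N w) → Inv N c J s0 w q) := by
  set d := dd N c J s0 with hd
  have hTl : Len N (tight J x) := h.lenJ.tight _
  have hE : Len N ([] : List (List ℤ)) := fun r hr => by simp at hr
  have hmt : ∀ r, r ∈ tight J x ↔ r ∈ J ∧ rf N r (lv N x) = 0 := fun r => mem_tight h.lenJ hi.len
  by_cases hf : feas c [] (tight J x) (gain c x) = true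
  swap
  · have e : nxtW c d J x = none := by unfold nxtW; rw [if_neg hf]
    refine ⟨fun _ y hy => ?_, fun w hw => by rw [e] at hw; exact absurd hw (by simp)⟩
    rw [feas_iffN h.lenc hE hTl (length_gainN h.lenc)] at hf
    by_contra hcon
    push Not at hcon
    refine hf ⟨y, ⟨by simp, fun r hr => hy.2 r ((hmt r).1 hr).1⟩, ?_⟩
    rw [rf_gainN h.lenc hi.len]
    exact hcon
  -- there is an improving extreme ray
  have e : nxtW c d J x = improve (ob c d (kW c d J) (srchW c d J x (kW c d J) + 1)) [] J x := by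
    unfold nxtW; rw [if_pos hf]
  rw [e]
  rw [feas_iffN h.lenc hE hTl (length_gainN h.lenc)] at hf
  obtain ⟨y, hy, hyp⟩ := hf
  rw [rf_gainN h.lenc hi.len] at hyp
  obtain ⟨y', hy', hyp'⟩ := tan_gain hi.ext.mem (h := y)
    (fun r hr hr0 => hy.2 r ((hmt r).2 ⟨hr, hr0⟩)) (rf N (tN N)) 0 (rf N c) 0 (by
      rw [zero_mul, add_zero]; exact hyp)
  rw [zero_mul, add_zero, ← gL_apply] at hyp'
  obtain ⟨u0, hu0, hup0⟩ := exists_ext h.pt hy' hyp'
  rw [gL_apply] at hup0
  obtain ⟨w0, hw0, hwp0, hmin⟩ := hi.next h hu0 hup0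
  set q := slp N c J s0 (lv N x) w0 with hq
  have hw0q : gd N c J s0 (lv N x) w0 = -(q * gc N c (lv N x) w0) := slp_mul hwp0
  -- `p < q`
  have hpq : p < q := by
    have h1 := hi.strict h hw0 hwp0
    rw [hw0q] at h1
    have h2 : 0 < (q - p) * gc N c (lv N x) w0 := by linarith
    have := (mul_pos_iff_of_pos_right hwp0).1 h2
    linarith
  have hq0 : 0 < q := hi.nonneg.trans_lt hpq
  -- `x` is on top for `q`
  have htq : Tp N c J s0 q (lv N x) := by
    refine TopM.of_ext h.pt fun u hu => ?_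
    change gd N c J s0 (lv N x) u + q * gc N c (lv N x) u ≤ 0
    rcases le_or_gt (gc N c (lv N x) u) 0 with h1 | h1
    · have h2 : gd N c J s0 (lv N x) u + p * gc N c (lv N x) u ≤ 0 := hi.top u hu.mem
      have h3 : (q - p) * gc N c (lv N x) u ≤ 0 :=
        mul_nonpos_of_nonneg_of_nonpos (by linarith) h1
      linarith
    · rw [slp_mul h1]
      have h2 := mul_le_mul_of_nonneg_right (hmin u hu h1) h1.le
      linarith
  -- the search
  set K := kW c d J with hK
  have hKp : (0 : ℝ) < 2 ^ K := by positivity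
  have hbad : ∀ s : ℕ, badW c d J x K s = true ↔ q * 2 ^ K < s := by
    intro s
    have hgl : (gain c x).length = N := length_gainN h.lenc
    rw [badW, feas_iffN h.lenc hE (hTl.cons (length_negV hgl)) (length_gainN (length_ob h))]
    constructor
    · rintro ⟨z, hz, hzp⟩
      by_contra hcon
      push Not at hcon
      rw [rf_gainN (length_ob h) hi.len, gn_ob h] at hzp
      have h1 := hz.2 _ (List.mem_cons_self ..)
      rw [rf_negV, rf_gainN h.lenc hi.len] at h1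
      have h1' : 0 ≤ gc N c (lv N x) z := by unfold gc; linarith
      have h2 := mul_le_mul_of_nonneg_right hcon h1'
      have h3 : 0 < 2 ^ K * (gd N c J s0 (lv N x) z + q * gc N c (lv N x) z) := by linarith
      have h4 := (mul_pos_iff_of_pos_left hKp).1 h3
      obtain ⟨z', hz', hzp'⟩ := tan_gain hi.ext.mem (h := z)
        (fun r hr hr0 => hz.2 r (List.mem_cons_of_mem _ ((hmt r).2 ⟨hr, hr0⟩)))
        (rf N (tN N)) (rf N c) (rf N d) q h4
      exact absurd (htq z' hz') (not_le.2 hzp')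
    · intro hs
      refine ⟨w0, ⟨by simp, fun r hr => ?_⟩, ?_⟩
      · rcases List.mem_cons.1 hr with rfl | hr
        · rw [rf_negV, rf_gainN h.lenc hi.len]
          have : 0 < gn (rf N (tN N)) (rf N c) (lv N x) w0 := hwp0
          linarith
        · exact hw0.mem.2 r ((hmt r).1 hr).1
      · rw [rf_gainN (length_ob h) hi.len, gn_ob h, hw0q]
        have := mul_pos (sub_pos.2 hs) hwp0
        linarith
  obtain ⟨b1, -, b3, b4⟩ := binary_search (A := fun s => !badW c d J x K s) (fun s s' hs h' => by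
    simp only [Bool.not_eq_true'] at h' ⊢
    rw [← Bool.not_eq_true, hbad] at h' ⊢
    push Not at h' ⊢
    have : (s : ℝ) ≤ s' := by exact_mod_cast hs
    exact this.trans h') (2 * K + 1) 0 _ (srchW_eq c d J x K)
  set S := srchW c d J x K with hS
  -- the bounds for `q`
  obtain ⟨P, Q, Q1, Q2, P1, hPQ⟩ := hi.slope' h hw0 hwp0
  have hKdef : K = 6 * bpar c [] J + 3 + sz d := rfl
  have hQ1 : (1 : ℝ) ≤ Q := by exact_mod_cast (show 1 ≤ Q by omega)
  have hqK : q ≤ 2 ^ K := by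
    have h1 : q * 1 ≤ q * Q := mul_le_mul_of_nonneg_left hQ1 hq0.le
    rw [mul_one] at h1
    refine h1.trans ?_
    rw [hPQ]
    refine (le_abs_self _).trans (P1.trans (pow_le_pow_right₀ (by norm_num) ?_))
    rw [hKdef, hd]; omega
  have c1 : (S : ℝ) ≤ q * 2 ^ K := by
    rcases b1 with b1 | b1
    · simp only [Bool.not_eq_true'] at b1
      rw [← Bool.not_eq_true, hbad] at b1
      exact not_lt.1 b1
    · rw [b1, Nat.cast_zero]
      exact mul_nonneg hq0.le hKp.le
  have c2 : q * 2 ^ K < ((S + 1 : ℕ) : ℝ) := by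
    rw [← hbad]
    by_contra hcon
    have h1 := b4 (S + 1) (Nat.zero_le _) (by
      have h2 : q * 2 ^ K ≤ 2 ^ (2 * K) := by
        rw [two_mul, pow_add]
        exact mul_le_mul_of_nonneg_right hqK hKp.le
      have h3 : (S : ℝ) ≤ 2 ^ (2 * K) := c1.trans h2
      have h4 : S ≤ 2 ^ (2 * K) := by exact_mod_cast h3
      have h5 : 1 < 2 ^ (2 * K) := Nat.one_lt_two_pow (by rw [hKdef]; omega)
      rw [pow_succ]
      omega) (by simpa using hcon)
    omega
  have c3 : ((S + 1 : ℕ) : ℝ) ≤ q * 2 ^ K + 1 := by push_cast; linarith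
  -- the gap
  have hgap : ∀ u, Ext (rf N) [] J u → 0 < gc N c (lv N x) u →
      0 < 2 ^ K * gd N c J s0 (lv N x) u + ((S + 1 : ℕ) : ℝ) * gc N c (lv N x) u →
      gd N c J s0 (lv N x) u + q * gc N c (lv N x) u = 0 := by
    intro u hu hup hpos
    have hle := hmin u hu hup
    rcases hle.lt_or_eq with hlt | heq
    · exfalso
      obtain ⟨P', Q', Q1', Q2', -, hPQ'⟩ := hi.slope' h hu hup
      have h1 := gap_arith hPQ hPQ' Q1 Q1' Q2 Q2' hlt
      rw [slp_mul hup] at hpos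
      have h2 : 0 < (((S + 1 : ℕ) : ℝ) - 2 ^ K * slp N c J s0 (lv N x) u) *
          gc N c (lv N x) u := by linarith
      have h3 := (mul_pos_iff_of_pos_right hup).1 h2
      have h4 : (slp N c J s0 (lv N x) u - q) * 2 ^ K < 1 := by linarith
      have h5 : (2 : ℝ) ^ (3 * bpar c [] J + 1) * 2 ^ (3 * bpar c [] J + 1) ≤ 2 ^ K := by
        rw [← pow_add]
        exact pow_le_pow_right₀ (by norm_num) (by rw [hKdef]; omega)
      have h6 := mul_le_mul_of_nonneg_left h5 (sub_nonneg.2 hle)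
      linarith
    · rw [slp_mul hup, ← heq]
      ring
  -- the feasibility
  have hfo : feas (ob c d K (S + 1)) [] (tight J x) (gain (ob c d K (S + 1)) x) = true := by
    rw [feas_iffN (length_ob h) hE hTl (length_gainN (length_ob h))]
    refine ⟨w0, ⟨by simp, fun r hr => hw0.mem.2 r ((hmt r).1 hr).1⟩, ?_⟩
    rw [rf_gainN (length_ob h) hi.len, gn_ob h, hw0q]
    have := mul_pos (sub_pos.2 c2) hwp0
    linarith
  refine ⟨fun hn => ?_, fun w hw => ?_⟩
  · exfalso
    unfold improve at hn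
    rw [if_pos hfo] at hn
    exact absurd hn (by simp)
  obtain ⟨w1, w2, w3, w4⟩ := improve_someN (length_ob h) hE h.lenJ hi.len h.tauJ hi.ext hi.pos hw
  rw [up_iff, gn_ob h] at w4
  -- the direction is improving
  have w5 : 0 < gc N c (lv N x) (lv N w) := by
    have h1 : gd N c J s0 (lv N x) (lv N w) + q * gc N c (lv N x) (lv N w) ≤ 0 :=
      htq _ w2.mem
    have h2 : 2 ^ K * (gd N c J s0 (lv N x) (lv N w) + q * gc N c (lv N x) (lv N w)) ≤ 0 :=
      mul_nonpos_of_nonneg_of_nonpos hKp.le h1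
    have h3 : 0 < (((S + 1 : ℕ) : ℝ) - q * 2 ^ K) * gc N c (lv N x) (lv N w) := by linarith
    exact (mul_pos_iff_of_pos_left (sub_pos.2 c2)).1 h3
  have w6 := hgap _ w2 w5 w4
  refine ⟨w1, w2, w3, up_iff.2 w5, q, hpq, htq, fun hτw => ?_⟩
  refine ⟨w1, w2, hτw, hq0.le, TopM.trans htq hi.pos hτw.le w6, Or.inr ⟨lv N x, hi.ext, hi.pos,
    up_iff.2 w5, ?_⟩⟩
  unfold gd gc gn at w6 ⊢
  linear_combination (-1 : ℝ) * w6

end Step

end Pool.Agent.X97.SV
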